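import Pool.Agent.Q299.RM.RegC

/-!
# Vertical blowing-ups with a regular local ring over a regular point of the generic fibre
-/

set_option autoImplicit false

universe u

namespace Pool.Agent.Q299.RM

open Pool.Agent.W418.LU2 Pool.Agent.TH188.ARC IsLocalRing
open Pool.Agent.TH188.QS (norm_params ic_lo noeth_cl noeth_lo exists_den)
open Pool.Agent.H176.DT (SU PP vert_stage)

variable {F L : Type u} [Field F] [Field L] {D : Subring F} {π : D →+* L}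
  {W : ValuationSubring L} {V : ValuationSubring F}

/-- Parameters of the regular local ring `D` in a ring of which it is a localization. -/
theorem exists_params (h : Tr D π W V) (hreg : IsRegularLocalRing D) {A : Subring F}
    (hAD : A ≤ D)
    (hfr : ∀ a ∈ D, ∃ b ∈ A, ∃ c ∈ A, ∃ hc : c ∈ D, π ⟨c, hc⟩ ≠ 0 ∧ a = b * c⁻¹) :
    ∃ (κ : Type) (_ : Fintype κ) (x : κ → F), (∀ i, x i ∈ A) ∧ (∀ i, Im π (x i) 0) ∧
      (∀ w, Im π w 0 → ∃ c : κ → F, (∀ i, c i ∈ D) ∧ w = ∑ i, c i * x i) ∧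
      ((Fintype.card κ : ℕ) : WithBot ℕ∞) ≤ ringKrullDim D := by
  classical
  have hreg₀ : RegP D D (Empty.elim : Empty → F) :=
    Pool.Agent.TH188.QS.RegP.of_reg le_rfl (fun y _ _ hy => hy) hreg
  obtain ⟨κ, _, x', hreg', hn, hgen, -, hdim⟩ := norm_params hreg₀
  have hx0 : ∀ i, Im π (x' i) 0 := fun i =>
    (nu_D h (hreg'.mem i)).1 fun h1 => hn i h1.2
  choose b hb c hc hcD hcπ hbc using fun i => hfr (x' i) (hreg'.mem i)
  have hcI : ∀ i, Im π (c i) (π ⟨c i, hcD i⟩) := fun i => ⟨hcD i, rfl⟩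
  have hc0 : ∀ i, c i ≠ 0 := fun i => (hcI i).ne_zero (hcπ i)
  have hxb : ∀ i, b i = x' i * c i := fun i => by
    rw [hbc i, mul_assoc, inv_mul_cancel₀ (hc0 i), mul_one]
  refine ⟨κ, inferInstance, b, hb, fun i => ?_, fun w hw => ?_, hdim⟩
  · rw [hxb i]
    exact Im.zero_mul (hx0 i) (hcD i)
  · obtain ⟨e, he, hwe⟩ := hgen w hw.mem ((nu_D h hw.mem).2 hw)
    refine ⟨fun i => e i * (c i)⁻¹, fun i => D.mul_mem (he i) ((hcI i).inv h.unit (hcπ i)).mem, ?_⟩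
    rw [hwe]
    refine Finset.sum_congr rfl fun i _ => ?_
    rw [hxb i]
    have := hc0 i
    field_simp

theorem core (h : Tr D π W V) (hreg : IsRegularLocalRing D)
    {A : Subring F} [IsNoetherianRing A] (hAD : A ≤ D) (hAV : A ≤ V.toSubring)
    (hfr : ∀ a ∈ D, ∃ b ∈ A, ∃ c ∈ A, ∃ hc : c ∈ D, π ⟨c, hc⟩ ≠ 0 ∧ a = b * c⁻¹)
    {p : F} {pb : L} (hpA : p ∈ A) (hp : Im π p pb) (hpb : pb ≠ 0)
    (hpW : ∀ z : L, ∃ n : ℕ, pb ^ n * z ∈ W) (hSU : SU W (imr π A)) :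
    ∃ (T : Set F) (β : F) (n : ℕ), T.Finite ∧ β ∈ A ∧ β ≠ 0 ∧ (∀ t ∈ T, β * t ∈ A) ∧
      (∀ t ∈ T, t ∈ V) ∧ p ^ n * β⁻¹ ∈ PP V A T ∧ IsRegularLocalRing (PP V A T) := by
  classical
  have hp0 : p ≠ 0 := hp.ne_zero hpb
  -- the parameters of the local ring
  obtain ⟨κ, _, x, hxA, hx0, hxgen, hxdim⟩ := exists_params h hreg hAD hfr
  obtain ⟨m₀, a, haA, ha0, hagen⟩ := exists_ker_gen (π := π) (B := A) hAD
  choose d hdD hda using fun k => hxgen (a k) (ha0 k)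
  obtain ⟨s, hsA, sb, hsb0, hsI, hsd⟩ := comden_D hfr (ι := Fin m₀ × κ) (z := fun q => d q.1 q.2)
    (fun q => hdD q.1 q.2)
  have hs𝔭 : ∀ w ∈ A, Im π w 0 → ∃ g : κ → F, (∀ i, g i ∈ A) ∧ s * w = ∑ i, g i * x i := by
    intro w hw hw0
    obtain ⟨c, hc, hwc⟩ := hagen w hw hw0
    refine ⟨fun i => ∑ k, c k * (d k i * s), fun i => A.sum_mem fun k _ =>
      A.mul_mem (hc k) (hsd (k, i)), ?_⟩
    have h1 : ∀ k, c k * a k = ∑ i, c k * d k i * x i := by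
      intro k
      rw [hda k, Finset.mul_sum]
      exact Finset.sum_congr rfl fun i _ => by ring
    rw [hwc]
    simp_rw [h1, Finset.sum_mul]
    rw [Finset.mul_sum, Finset.sum_comm]
    refine Finset.sum_congr rfl fun k _ => ?_
    rw [Finset.mul_sum]
    exact Finset.sum_congr rfl fun i _ => by ring
  -- the stage for the residue field
  set Ab := imr π A with hAb
  have hpbW : pb ∈ W := (tr_mem h hp).1 (hAV hpA)
  obtain ⟨M, hM⟩ := hpW sb⁻¹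
  obtain ⟨Tb, n₁, xb, hSt, hxbV, hmon, ub, η, hub1, hub2, hub0, hpη, hη⟩ :=
    vert_stage W Ab hSU pb hpb hpbW hpW {pb ^ M * sb⁻¹} (Set.finite_singleton _) (by
      rintro g hg
      rw [Set.mem_singleton_iff.1 hg]
      exact mul_ne_zero (pow_ne_zero _ hpb) (inv_ne_zero hsb0))
  set Qb := PP W Ab Tb with hQb
  have hregb : RegP W.toSubring Qb xb := hSt.reg
  have hQbW : Qb ≤ W.toSubring := hregb.PA
  have hMQ : pb ^ M * sb⁻¹ ∈ Qb := (hmon _ (Set.mem_singleton _)).2 hM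
  obtain ⟨βb, hβbA, ⟨vb, hvb0, hvb1, hvb2, γ, hγ⟩, hTbβ, -⟩ := hSt.den
  have hβb0 : βb ≠ 0 := by
    rw [hγ]
    exact mul_ne_zero hvb0 (mo_ne_zero hregb.ne γ)
  obtain ⟨N, hN⟩ : ∃ N : ℕ, pb ^ N * βb⁻¹ ∈ Qb := by
    obtain ⟨n, hn⟩ : ∃ n : ℕ, ∀ i, γ i ≤ (n : ℤ) := by
      refine ⟨∑ i, (γ i).toNat, fun i => ?_⟩
      have h1 : (γ i).toNat ≤ ∑ i, (γ i).toNat :=
        Finset.single_le_sum (f := fun i => (γ i).toNat) (fun _ _ => Nat.zero_le _)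
          (Finset.mem_univ i)
      exact (Int.self_le_toNat _).trans (by exact_mod_cast h1)
    refine ⟨n, ?_⟩
    have h1 : pb ^ n * βb⁻¹ = ub ^ n * vb⁻¹ * mo xb ((n : ℤ) • η - γ) := by
      rw [sub_eq_add_neg, mo_add hregb.ne, mo_neg, Pool.Agent.Y67.DT.mo_zsmul, zpow_natCast, hpη,
        hγ, mul_pow, mul_inv]
      ring
    rw [h1]
    refine Qb.mul_mem (Qb.mul_mem (Qb.pow_mem hub1 _) hvb2) (mo_mem hregb.mem fun i => ?_)
    rw [Pi.zero_apply, Pi.sub_apply, Pi.smul_apply, smul_eq_mul]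
    have h2 := hn i
    have h3 : (n : ℤ) * 1 ≤ (n : ℤ) * η i :=
      mul_le_mul_of_nonneg_left (hη i) (Int.natCast_nonneg _)
    linarith
  -- the lifts
  obtain ⟨β, hβA, hβ⟩ := hβbA
  have hβ0 : β ≠ 0 := hβ.ne_zero hβb0
  have hβi : Im π β⁻¹ βb⁻¹ := hβ.inv h.unit hβb0
  have hlift : ∀ tb : L, ∃ a : F, tb ∈ Tb → a ∈ A ∧ Im π a (βb * tb) := by
    intro tb
    by_cases htb : tb ∈ Tb
    · obtain ⟨a, ha, h1⟩ := hTbβ tb htb
      exact ⟨a, fun _ => ⟨ha, h1⟩⟩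
    · exact ⟨0, fun h => absurd h htb⟩
  choose lf hlf using hlift
  let T : Set F := (fun tb => lf tb * β⁻¹) '' Tb
  have hTI : ∀ tb ∈ Tb, Im π (lf tb * β⁻¹) tb := by
    intro tb htb
    have h1 := (hlf tb htb).2.mul hβi
    have h2 : βb * tb * βb⁻¹ = tb := by
      field_simp
    rwa [h2] at h1
  have hTbW : ∀ tb ∈ Tb, tb ∈ W := fun tb htb =>
    hQbW (le_lo _ _ (Subring.subset_closure (Or.inr htb)))
  have hTD : ∀ t ∈ T, t ∈ D := by
    rintro _ ⟨tb, htb, rfl⟩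
    exact (hTI tb htb).mem
  have hTV : ∀ t ∈ T, t ∈ V := by
    rintro _ ⟨tb, htb, rfl⟩
    exact (tr_mem h (hTI tb htb)).2 (hTbW tb htb)
  have hTβ : ∀ t ∈ T, t * β ∈ A := by
    rintro _ ⟨tb, htb, rfl⟩
    change lf tb * β⁻¹ * β ∈ A
    rw [mul_assoc, inv_mul_cancel₀ hβ0, mul_one]
    exact (hlf tb htb).1
  have hTf : T.Finite := hSt.fin.image _
  set B := Subring.closure ((A : Set F) ∪ T) with hB
  have hAB : A ≤ B := fun z hz => Subring.subset_closure (Or.inl hz)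
  have hBD : B ≤ D := by
    rw [hB, Subring.closure_le]
    rintro z (hz | hz)
    · exact hAD hz
    · exact hTD z hz
  have hBV : B ≤ V.toSubring := by
    rw [hB, Subring.closure_le]
    rintro z (hz | hz)
    · exact hAV hz
    · exact hTV z hz
  have hBn : IsNoetherianRing B := noeth_cl hTf
  have himB : imr π B = Subring.closure ((Ab : Set L) ∪ Tb) := by
    refine imr_closure ?_ ?_
    · rintro z (hz | ⟨tb, htb, rfl⟩)
      · exact ⟨_, Or.inl ⟨z, hz, Im.of_mem (hAD hz)⟩, Im.of_mem (hAD hz)⟩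
      · exact ⟨tb, Or.inr htb, hTI tb htb⟩
    · rintro w (⟨z, hz, hzw⟩ | hw)
      · exact ⟨z, Or.inl hz, hzw⟩
      · exact ⟨_, Or.inr ⟨w, hw, rfl⟩, hTI w hw⟩
  have hQbB : Qb = lo W.toSubring (imr π B) := by rw [himB]
  -- the kernel
  obtain ⟨m, b, hbB, hb0, hbgen⟩ := exists_ker_gen (π := π) (B := B) hBD
  choose kk hkk using fun j => exists_den (A := A) (T := T) hβA hTβ (hbB j)
  set k := Finset.univ.sup kk with hk
  have hβb : ∀ j, ∀ l, k ≤ l → β ^ l * b j ∈ A := fun j l hl =>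
    hkk j l ((Finset.le_sup (Finset.mem_univ j)).trans hl)
  choose G hGA hG using fun j => hs𝔭 (β ^ k * b j) (hβb j k le_rfl)
    (Im.mul_zero (D.pow_mem hβ.mem k) (hb0 j))
  set s₁ := s * β ^ k with hs₁
  have hs₁A : s₁ ∈ A := A.mul_mem hsA (A.pow_mem hβA k)
  have hs₁I : Im π s₁ (sb * βb ^ k) := hsI.mul (hβ.pow k)
  have hs₁b0 : sb * βb ^ k ≠ 0 := mul_ne_zero hsb0 (pow_ne_zero _ hβb0)
  have hs₁G : ∀ j, s₁ * b j = ∑ i, G j i * x i := by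
    intro j
    rw [← hG j, hs₁]
    ring
  -- divisibility of the powers of `p`
  have hdiv : ∀ (c : F) (cb : L) (l : ℕ), c ∈ B → Im π c cb → cb ≠ 0 → pb ^ l * cb⁻¹ ∈ Qb →
      ∃ e ∈ B, ∃ f ∈ B, ∃ fb : L, Im π f fb ∧ fb ≠ 0 ∧ fb⁻¹ ∈ W ∧
        Im π (f * p ^ l - c * e) 0 := by
    intro c cb l hcB hc hc0 hl
    rw [hQbB] at hl
    obtain ⟨eb, ⟨e, heB, he⟩, fb, ⟨f, hfB, hf⟩, hfb0, hfbW, hl⟩ := hl
    refine ⟨e, heB, f, hfB, fb, hf, hfb0, hfbW, ?_⟩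
    have h1 := (hf.mul (hp.pow l)).sub (hc.mul he)
    have h2 : fb * pb ^ l - cb * eb = 0 := by
      have h3 : pb ^ l = eb * fb⁻¹ * cb := by
        rw [← hl]
        field_simp
      rw [h3]
      field_simp
      ring
    rwa [h2] at h1
  have hM₁ : pb ^ (M + N * k) * (sb * βb ^ k)⁻¹ ∈ Qb := by
    have h1 : pb ^ (M + N * k) * (sb * βb ^ k)⁻¹ = (pb ^ M * sb⁻¹) * (pb ^ N * βb⁻¹) ^ k := by
      rw [pow_add, pow_mul, mul_inv, mul_pow, inv_pow]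
      ring
    rw [h1]
    exact Qb.mul_mem hMQ (Qb.pow_mem hN k)
  set M₁ := M + N * k with hM₁def
  obtain ⟨e, heB, f, hfB, fb, hfI, hfb0, hfbW, hfe⟩ := hdiv s₁ _ M₁ (hAB hs₁A) hs₁I hs₁b0 hM₁
  obtain ⟨e₂, he₂B, f₂, hf₂B, f₂b, hf₂I, hf₂b0, hf₂bW, hfe₂⟩ := hdiv β βb N (hAB hβA) hβ hβb0 hN
  set Λ := max M₁ N with hΛ
  have hΛM : M₁ ≤ Λ := le_max_left _ _
  have hΛN : N ≤ Λ := le_max_right _ _
  -- the dilatations
  have hpi : Im π p⁻¹ pb⁻¹ := hp.inv h.unit hpb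
  have hpl : ∀ l : ℕ, p ^ l ≠ 0 := fun l => pow_ne_zero l hp0
  have hpiD : ∀ l : ℕ, (p ^ l)⁻¹ ∈ D := fun l => by
    rw [← inv_pow]
    exact D.pow_mem hpi.mem l
  let y : Fin m → F := fun j => b j * (p ^ (Λ + 1))⁻¹
  let z : κ → F := fun i => x i * (p ^ (Λ + 1 + M₁))⁻¹
  have hy0 : ∀ j, Im π (y j) 0 := fun j => Im.zero_mul (hb0 j) (hpiD _)
  have hz0 : ∀ i, Im π (z i) 0 := fun i => Im.zero_mul (hx0 i) (hpiD _)
  let T₂ : Set F := T ∪ (Set.range y ∪ Set.range z)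
  have hT₂f : T₂.Finite := hTf.union ((Set.finite_range _).union (Set.finite_range _))
  have hT₂V : ∀ t ∈ T₂, t ∈ V := by
    rintro t (ht | ⟨j, rfl⟩ | ⟨i, rfl⟩)
    · exact hTV t ht
    · exact (tr_mem h (hy0 j)).2 W.zero_mem
    · exact (tr_mem h (hz0 i)).2 W.zero_mem
  have hT₂D : ∀ t ∈ T₂, t ∈ D := by
    rintro t (ht | ⟨j, rfl⟩ | ⟨i, rfl⟩)
    · exact hTD t ht
    · exact (hy0 j).mem
    · exact (hz0 i).mem
  set B₂ := Subring.closure ((A : Set F) ∪ T₂) with hB₂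
  have hB₂B : B₂ = Subring.closure ((B : Set F) ∪ (Set.range y ∪ Set.range z)) := by
    rw [hB, Pool.Agent.TH188.QS.closure_closure_union, Set.union_assoc]
  have hBB₂ : B ≤ B₂ := by
    rw [hB₂B]
    exact fun w hw => Subring.subset_closure (Or.inl hw)
  have hyB₂ : ∀ j, y j ∈ B₂ := fun j => Subring.subset_closure (Or.inr (Or.inr (Or.inl ⟨j, rfl⟩)))
  have hzB₂ : ∀ i, z i ∈ B₂ := fun i => Subring.subset_closure (Or.inr (Or.inr (Or.inr ⟨i, rfl⟩)))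
  have hB₂D : B₂ ≤ D := by
    rw [hB₂, Subring.closure_le]
    rintro w (hw | hw)
    · exact hAD hw
    · exact hT₂D w hw
  have hB₂V : B₂ ≤ V.toSubring := by
    rw [hB₂, Subring.closure_le]
    rintro w (hw | hw)
    · exact hAV hw
    · exact hT₂V w hw
  have hB₂n : IsNoetherianRing B₂ := noeth_cl hT₂f
  have himB₂ : imr π B₂ = imr π B := by
    apply le_antisymm
    · have h1 : imr π B₂ = Subring.closure ((imr π B : Set L) ∪ {0}) := by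
        rw [hB₂B]
        refine imr_closure ?_ ?_
        · rintro w (hw | ⟨j, rfl⟩ | ⟨i, rfl⟩)
          · exact ⟨_, Or.inl ⟨w, hw, Im.of_mem (hBD hw)⟩, Im.of_mem (hBD hw)⟩
          · exact ⟨0, Or.inr rfl, hy0 j⟩
          · exact ⟨0, Or.inr rfl, hz0 i⟩
        · rintro w (⟨v, hv, hvw⟩ | hw)
          · exact ⟨v, Or.inl hv, hvw⟩
          · rw [Set.mem_singleton_iff.1 hw]
            exact ⟨0, Or.inl B.zero_mem, Im.zero⟩
      rw [h1, Subring.closure_le]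
      rintro w (hw | hw)
      · exact hw
      · rw [Set.mem_singleton_iff.1 hw]
        exact Subring.zero_mem _
    · exact imr_mono hBB₂
  set Q := lo V.toSubring B₂ with hQ
  have hB₂Q : B₂ ≤ Q := le_lo _ _
  have hQD : Q ≤ D := lo_le_D h hB₂D hB₂V
  -- divisibility in `B₂`
  have hdiv₂ : ∀ (c e f : F) (fb : L) (l : ℕ), l ≤ Λ → c ∈ B → e ∈ B → f ∈ B → Im π f fb →
      fb ≠ 0 → fb⁻¹ ∈ W → Im π (f * p ^ l - c * e) 0 →
      ∃ f' ∈ B₂, f' ≠ 0 ∧ f'⁻¹ ∈ Q ∧ p ^ l * f' = c * e := by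
    intro c e f fb l hl hc he hf hfI hfb0 hfbW hz
    have h1 : f * p ^ l - c * e ∈ B :=
      B.sub_mem (B.mul_mem hf (B.pow_mem (hAB hpA) l)) (B.mul_mem hc he)
    obtain ⟨g, hg, hgb⟩ := hbgen _ h1 hz
    set q := ∑ j, g j * y j with hq
    have hqB : q ∈ B₂ := B₂.sum_mem fun j _ => B₂.mul_mem (hBB₂ (hg j)) (hyB₂ j)
    have hqI : Im π q 0 := by
      have h2 := Im.sum (π := π) Finset.univ (z := fun j => g j * y j) (w := fun _ => 0)
        fun j _ => Im.mul_zero (hBD (hg j)) (hy0 j)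
      rwa [Finset.sum_const_zero] at h2
    have hqe : f * p ^ l - c * e = p ^ (Λ + 1) * q := by
      rw [hgb, hq, Finset.mul_sum]
      refine Finset.sum_congr rfl fun j _ => ?_
      change g j * b j = p ^ (Λ + 1) * (g j * (b j * (p ^ (Λ + 1))⁻¹))
      have := hpl (Λ + 1)
      field_simp
    have hf'I : Im π (f - p ^ (Λ + 1 - l) * q) fb := by
      have h2 := hfI.sub (Im.mul_zero (D.pow_mem hp.mem (Λ + 1 - l)) hqI)
      rwa [sub_zero] at h2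
    have hf'B : f - p ^ (Λ + 1 - l) * q ∈ B₂ :=
      B₂.sub_mem (hBB₂ hf) (B₂.mul_mem (B₂.pow_mem (hBB₂ (hAB hpA)) _) hqB)
    have hf'u := (tr_unit h hf'I (hB₂V hf'B)).2 ⟨hfb0, hfbW⟩
    refine ⟨_, hf'B, hf'u.1, inv_mem_lo hB₂V (hB₂Q hf'B) hf'u.1 hf'u.2, ?_⟩
    have h3 : p ^ (Λ + 1) = p ^ l * p ^ (Λ + 1 - l) := by
      rw [← pow_add]
      congr 1
      omega
    rw [h3] at hqe
    linear_combination hqe
  obtain ⟨f', hf'B, hf'0, hf'Q, hf'e⟩ := hdiv₂ s₁ e f fb M₁ hΛM (hAB hs₁A) heB hfB hfI hfb0 hfbW hfe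
  obtain ⟨f₂', hf₂'B, hf₂'0, hf₂'Q, hf₂'e⟩ := hdiv₂ β e₂ f₂ f₂b N hΛN (hAB hβA) he₂B hf₂B hf₂I
    hf₂b0 hf₂bW hfe₂
  -- the kernel is generated by the `z i`
  have hyz : ∀ j, y j = ∑ i, (f'⁻¹ * e * G j i) * z i := by
    intro j
    have h1 : p ^ M₁ * f' * b j = e * ∑ i, G j i * x i := by
      rw [hf'e, ← hs₁G j]
      ring
    have h2 : ∀ i, f'⁻¹ * e * G j i * z i =
        f'⁻¹ * (p ^ (Λ + 1 + M₁))⁻¹ * (e * (G j i * x i)) := by
      intro i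
      change f'⁻¹ * e * G j i * (x i * (p ^ (Λ + 1 + M₁))⁻¹) = _
      ring
    simp_rw [h2]
    rw [← Finset.mul_sum, ← Finset.mul_sum, ← h1]
    change b j * (p ^ (Λ + 1))⁻¹ = _
    rw [pow_add p (Λ + 1) M₁]
    have := hpl (Λ + 1)
    have := hpl M₁
    field_simp
  have hcQ : ∀ j i, f'⁻¹ * e * G j i ∈ Q := fun j i =>
    Q.mul_mem (Q.mul_mem hf'Q (hB₂Q (hBB₂ heB))) (hB₂Q (hBB₂ (hAB (hGA j i))))
  have hgenB : ∀ w ∈ B, Im π w 0 → ∃ c : κ → F, (∀ i, c i ∈ Q) ∧ w = ∑ i, c i * z i := by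
    intro w hw hw0
    obtain ⟨g, hg, hwg⟩ := hbgen w hw hw0
    refine ⟨fun i => ∑ j, g j * p ^ (Λ + 1) * (f'⁻¹ * e * G j i), fun i => Q.sum_mem fun j _ =>
      Q.mul_mem (Q.mul_mem (hB₂Q (hBB₂ (hg j))) (Q.pow_mem (hB₂Q (hBB₂ (hAB hpA))) _))
        (hcQ j i), ?_⟩
    have h1 : ∀ j, g j * b j = ∑ i, g j * p ^ (Λ + 1) * (f'⁻¹ * e * G j i) * z i := by
      intro j
      have h2 : b j = p ^ (Λ + 1) * y j := by
        change b j = p ^ (Λ + 1) * (b j * (p ^ (Λ + 1))⁻¹)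
        have := hpl (Λ + 1)
        field_simp
      rw [h2, hyz j, Finset.mul_sum, Finset.mul_sum]
      exact Finset.sum_congr rfl fun i _ => by ring
    rw [hwg]
    simp_rw [h1, Finset.sum_mul]
    exact Finset.sum_comm
  have hgenB₂ := adjoin_gen h (B := B) (B' := B₂) (Q := Q) (hBB₂.trans hB₂Q) hQD hz0
    (fun i => hB₂Q (hzB₂ i)) hB₂B (by
      rintro t (⟨j, rfl⟩ | ⟨i, rfl⟩)
      · exact ⟨_, hcQ j, hyz j⟩
      · refine ⟨Pi.single i 1, fun l => ?_, ?_⟩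
        · by_cases hl : l = i
          · subst hl
            rw [Pi.single_eq_same]
            exact Q.one_mem
          · rw [Pi.single_eq_of_ne hl]
            exact Q.zero_mem
        · rw [Finset.sum_eq_single i]
          · rw [Pi.single_eq_same, one_mul]
          · intro l _ hl
            rw [Pi.single_eq_of_ne hl, zero_mul]
          · intro h; exact absurd (Finset.mem_univ _) h) hgenB
  have hgenQ : ∀ w ∈ Q, Im π w 0 → ∃ c : κ → F, (∀ i, c i ∈ Q) ∧ w = ∑ i, c i * z i := by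
    rintro _ ⟨a, ha, b, hb, hb0, hbV, rfl⟩ hw0
    have hbQ : b⁻¹ ∈ Q := inv_mem_lo hB₂V (hB₂Q hb) hb0 hbV
    have ha0 : Im π a 0 := by
      have h1 := Im.zero_mul hw0 (hB₂D hb)
      rwa [mul_assoc, inv_mul_cancel₀ hb0, mul_one] at h1
    obtain ⟨c, hc, hac⟩ := hgenB₂ a ha ha0
    refine ⟨fun i => c i * b⁻¹, fun i => Q.mul_mem (hc i) hbQ, ?_⟩
    rw [hac, Finset.sum_mul]
    exact Finset.sum_congr rfl fun i _ => by ring
  have hregQ : IsRegularLocalRing Q := by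
    refine regular_core h hB₂D hB₂V ?_ (fun i => hB₂Q (hzB₂ i)) hz0 hgenQ hxdim ?_
    · intro a ha
      obtain ⟨b, hb, c, hc, hcD, hcπ, rfl⟩ := hfr a ha
      exact ⟨b, hBB₂ (hAB hb), c, hBB₂ (hAB hc), hcD, hcπ, rfl⟩
    · rw [himB₂, ← hQbB]
      exact hregb.reg
  -- the denominators
  refine ⟨T₂, β ^ (k + 1) * p ^ (Λ + 1 + M₁), N * (k + 1) + (Λ + 1 + M₁), hT₂f,
    A.mul_mem (A.pow_mem hβA _) (A.pow_mem hpA _), mul_ne_zero (pow_ne_zero _ hβ0) (hpl _), ?_,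
    hT₂V, ?_, hregQ⟩
  · rintro t (ht | ⟨j, rfl⟩ | ⟨i, rfl⟩)
    · have h1 : β ^ (k + 1) * p ^ (Λ + 1 + M₁) * t = β ^ k * p ^ (Λ + 1 + M₁) * (t * β) := by
        rw [pow_succ]
        ring
      rw [h1]
      exact A.mul_mem (A.mul_mem (A.pow_mem hβA _) (A.pow_mem hpA _)) (hTβ t ht)
    · have h1 : β ^ (k + 1) * p ^ (Λ + 1 + M₁) * y j = β ^ (k + 1) * b j * p ^ M₁ := by
        change β ^ (k + 1) * p ^ (Λ + 1 + M₁) * (b j * (p ^ (Λ + 1))⁻¹) = _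
        rw [pow_add p (Λ + 1) M₁]
        have := hpl (Λ + 1)
        field_simp
      rw [h1]
      exact A.mul_mem (hβb j (k + 1) (Nat.le_succ k)) (A.pow_mem hpA _)
    · have h1 : β ^ (k + 1) * p ^ (Λ + 1 + M₁) * z i = β ^ (k + 1) * x i := by
        change β ^ (k + 1) * p ^ (Λ + 1 + M₁) * (x i * (p ^ (Λ + 1 + M₁))⁻¹) = _
        have := hpl (Λ + 1 + M₁)
        field_simp
      rw [h1]
      exact A.mul_mem (A.pow_mem hβA _) (hxA i)
  · have h1 : p ^ N * β⁻¹ = e₂ * f₂'⁻¹ := by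
      have h2 : p ^ N = β * e₂ * f₂'⁻¹ := by
        rw [← hf₂'e, mul_assoc, mul_inv_cancel₀ hf₂'0, mul_one]
      rw [h2]
      field_simp
    have h3 : p ^ (N * (k + 1) + (Λ + 1 + M₁)) * (β ^ (k + 1) * p ^ (Λ + 1 + M₁))⁻¹ =
        (p ^ N * β⁻¹) ^ (k + 1) := by
      rw [pow_add, pow_mul, mul_pow, inv_pow]
      have := hpl (Λ + 1 + M₁)
      field_simp
    rw [h3, h1]
    exact Q.pow_mem (Q.mul_mem (hB₂Q (hBB₂ he₂B)) hf₂'Q) _

end Pool.Agent.Q299.RM
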