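import Pool.Agent.TH188.ARC.A3
import Pool.Agent.TH188.QS.Comp3
import Pool.Agent.H176.DT.G3

/-!
# The residues of the elements of a local ring
-/

set_option autoImplicit false

universe u

namespace Pool.Agent.Q299.RM

open Pool.Agent.W418.LU2 Pool.Agent.TH188.ARC IsLocalRing

variable {F L : Type u} [Field F] [Field L] {D : Subring F}

/-- The element `z` belongs to `D` and has the image `w`. -/
def Im (π : D →+* L) (z : F) (w : L) : Prop := ∃ hz : z ∈ D, π ⟨z, hz⟩ = w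

variable {π : D →+* L}

lemma Im.mem {z : F} {w : L} (h : Im π z w) : z ∈ D := h.1

lemma Im.of_mem {z : F} (h : z ∈ D) : Im π z (π ⟨z, h⟩) := ⟨h, rfl⟩

lemma Im.unique {z : F} {w w' : L} (h : Im π z w) (h' : Im π z w') : w = w' := by
  obtain ⟨h1, rfl⟩ := h
  obtain ⟨h2, rfl⟩ := h'
  rfl

lemma Im.zero : Im π 0 0 := ⟨D.zero_mem, map_zero π⟩

lemma Im.one : Im π 1 1 := ⟨D.one_mem, map_one π⟩

lemma Im.add {z z' : F} {w w' : L} (h : Im π z w) (h' : Im π z' w') : Im π (z + z') (w + w') := by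
  obtain ⟨h1, rfl⟩ := h
  obtain ⟨h2, rfl⟩ := h'
  exact ⟨D.add_mem h1 h2, map_add π ⟨z, h1⟩ ⟨z', h2⟩⟩

lemma Im.mul {z z' : F} {w w' : L} (h : Im π z w) (h' : Im π z' w') : Im π (z * z') (w * w') := by
  obtain ⟨h1, rfl⟩ := h
  obtain ⟨h2, rfl⟩ := h'
  exact ⟨D.mul_mem h1 h2, map_mul π ⟨z, h1⟩ ⟨z', h2⟩⟩

lemma Im.neg {z : F} {w : L} (h : Im π z w) : Im π (-z) (-w) := by
  obtain ⟨h1, rfl⟩ := h
  exact ⟨D.neg_mem h1, map_neg π ⟨z, h1⟩⟩

lemma Im.sub {z z' : F} {w w' : L} (h : Im π z w) (h' : Im π z' w') : Im π (z - z') (w - w') := by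
  rw [sub_eq_add_neg, sub_eq_add_neg]
  exact h.add h'.neg

lemma Im.pow {z : F} {w : L} (h : Im π z w) (n : ℕ) : Im π (z ^ n) (w ^ n) := by
  obtain ⟨h1, rfl⟩ := h
  exact ⟨D.pow_mem h1 n, map_pow π ⟨z, h1⟩ n⟩

lemma Im.sum {ι : Type*} (s : Finset ι) {z : ι → F} {w : ι → L} (h : ∀ i ∈ s, Im π (z i) (w i)) :
    Im π (∑ i ∈ s, z i) (∑ i ∈ s, w i) := by
  classical
  induction s using Finset.induction_on with
  | empty => rw [Finset.sum_empty, Finset.sum_empty]; exact Im.zero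
  | insert a s ha ih =>
    rw [Finset.sum_insert ha, Finset.sum_insert ha]
    exact (h a (Finset.mem_insert_self _ _)).add
      (ih fun i hi => h i (Finset.mem_insert_of_mem hi))

lemma Im.mul_zero {z z' : F} (h : z ∈ D) (h' : Im π z' 0) : Im π (z * z') 0 := by
  have := (Im.of_mem (π := π) h).mul h'
  rwa [MulZeroClass.mul_zero] at this

lemma Im.zero_mul {z z' : F} (h : Im π z 0) (h' : z' ∈ D) : Im π (z * z') 0 := by
  rw [mul_comm]
  exact Im.mul_zero h' h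

lemma Im.ne_zero {z : F} {w : L} (h : Im π z w) (hw : w ≠ 0) : z ≠ 0 := by
  rintro rfl
  exact hw (h.unique Im.zero)

lemma Im.inv (hu : ∀ a : D, π a ≠ 0 → (a : F)⁻¹ ∈ D) {z : F} {w : L} (h : Im π z w) (hw : w ≠ 0) :
    Im π z⁻¹ w⁻¹ := by
  have hz0 := h.ne_zero hw
  obtain ⟨h1, h2⟩ := h
  have h3 : z⁻¹ ∈ D := hu ⟨z, h1⟩ (by rw [h2]; exact hw)
  refine ⟨h3, ?_⟩
  rcases pi_inv π ⟨z, h1⟩ h3 with h4 | h4
  · rw [← h2]
    exact h4
  · exact absurd h4 hz0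

/-- The image of a subring. -/
def imr (π : D →+* L) (A : Subring F) : Subring L where
  carrier := {w | ∃ z ∈ A, Im π z w}
  mul_mem' := by
    rintro w w' ⟨z, hz, h⟩ ⟨z', hz', h'⟩
    exact ⟨_, A.mul_mem hz hz', h.mul h'⟩
  one_mem' := ⟨1, A.one_mem, Im.one⟩
  add_mem' := by
    rintro w w' ⟨z, hz, h⟩ ⟨z', hz', h'⟩
    exact ⟨_, A.add_mem hz hz', h.add h'⟩
  zero_mem' := ⟨0, A.zero_mem, Im.zero⟩
  neg_mem' := by
    rintro w ⟨z, hz, h⟩
    exact ⟨_, A.neg_mem hz, h.neg⟩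

lemma imr_mono {A B : Subring F} (h : A ≤ B) : imr π A ≤ imr π B := by
  rintro w ⟨z, hz, h'⟩
  exact ⟨z, h hz, h'⟩

lemma imr_closure {U : Set F} {Ub : Set L} (h1 : ∀ u ∈ U, ∃ w ∈ Ub, Im π u w)
    (h2 : ∀ w ∈ Ub, ∃ u ∈ U, Im π u w) : imr π (Subring.closure U) = Subring.closure Ub := by
  apply le_antisymm
  · rintro w ⟨z, hz, hzw⟩
    have key : ∀ z ∈ Subring.closure U, ∃ w ∈ Subring.closure Ub, Im π z w := by
      intro z hz
      induction hz using Subring.closure_induction with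
      | mem z hz =>
        obtain ⟨w, hw, h⟩ := h1 z hz
        exact ⟨w, Subring.subset_closure hw, h⟩
      | zero => exact ⟨0, Subring.zero_mem _, Im.zero⟩
      | one => exact ⟨1, Subring.one_mem _, Im.one⟩
      | add a b _ _ ha hb =>
        obtain ⟨w, hw, h⟩ := ha
        obtain ⟨w', hw', h'⟩ := hb
        exact ⟨_, Subring.add_mem _ hw hw', h.add h'⟩
      | neg a _ ha =>
        obtain ⟨w, hw, h⟩ := ha
        exact ⟨_, Subring.neg_mem _ hw, h.neg⟩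
      | mul a b _ _ ha hb =>
        obtain ⟨w, hw, h⟩ := ha
        obtain ⟨w', hw', h'⟩ := hb
        exact ⟨_, Subring.mul_mem _ hw hw', h.mul h'⟩
    obtain ⟨w', hw', h⟩ := key z hz
    rw [hzw.unique h]
    exact hw'
  · rw [Subring.closure_le]
    intro w hw
    obtain ⟨u, hu, h⟩ := h2 w hw
    exact ⟨u, Subring.subset_closure hu, h⟩

section tr

variable {W : ValuationSubring L} {V : ValuationSubring F} (h : Tr D π W V)

include h

lemma tr_mem {z : F} {w : L} (hz : Im π z w) : z ∈ V ↔ w ∈ W := by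
  obtain ⟨h1, rfl⟩ := hz
  exact h.mem ⟨z, h1⟩

lemma tr_lt {z : F} {w : L} (hz : Im π z w) : V.valuation z < 1 ↔ W.valuation w < 1 := by
  obtain ⟨h1, rfl⟩ := hz
  exact h.lt ⟨z, h1⟩

/-- Units of `V`. -/
lemma tr_unit {z : F} {w : L} (hz : Im π z w) (hzV : z ∈ V) :
    (z ≠ 0 ∧ z⁻¹ ∈ V) ↔ (w ≠ 0 ∧ w⁻¹ ∈ W) := by
  have hwW := (tr_mem h hz).1 hzV
  constructor
  · rintro ⟨h1, h2⟩
    have h3 : w ≠ 0 := by
      rintro rfl
      have h4 : V.valuation z < 1 := (tr_lt h hz).2 (by rw [map_zero]; exact zero_lt_one)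
      exact (val_lt_iff h1).1 h4 h2
    exact ⟨h3, (tr_mem h (hz.inv h.unit h3)).1 h2⟩
  · rintro ⟨h1, h2⟩
    exact ⟨hz.ne_zero h1, (tr_mem h (hz.inv h.unit h1)).2 h2⟩

lemma tr_nu {z : F} {w : L} (hz : Im π z w) (hzV : z ∈ V) :
    Pool.Agent.TH188.QS.NU V.toSubring z ↔ Pool.Agent.TH188.QS.NU W.toSubring w := by
  unfold Pool.Agent.TH188.QS.NU
  exact not_congr (tr_unit h hz hzV)

/-- The local rings at the centre are contained in `D`. -/
lemma lo_le_D {B : Subring F} (hBD : B ≤ D) (hBV : B ≤ V.toSubring) : lo V.toSubring B ≤ D := by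
  rintro _ ⟨a, ha, b, hb, hb0, hbV, rfl⟩
  have h1 := (tr_unit h (Im.of_mem (π := π) (hBD hb)) (hBV hb)).1 ⟨hb0, hbV⟩
  exact D.mul_mem (hBD ha) ((Im.of_mem (π := π) (hBD hb)).inv h.unit h1.1).mem

/-- The images of the local rings. -/
lemma imr_lo {B : Subring F} (hBD : B ≤ D) (hBV : B ≤ V.toSubring) :
    imr π (lo V.toSubring B) = lo W.toSubring (imr π B) := by
  ext w
  constructor
  · rintro ⟨_, ⟨a, ha, b, hb, hb0, hbV, rfl⟩, hw⟩
    have hb' := Im.of_mem (π := π) (hBD hb)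
    have ha' := Im.of_mem (π := π) (hBD ha)
    have h1 := (tr_unit h hb' (hBV hb)).1 ⟨hb0, hbV⟩
    exact ⟨_, ⟨a, ha, ha'⟩, _, ⟨b, hb, hb'⟩, h1.1, h1.2, hw.unique (ha'.mul (hb'.inv h.unit h1.1))⟩
  · rintro ⟨wa, ⟨a, ha, ha'⟩, wb, ⟨b, hb, hb'⟩, hb0, hbW, rfl⟩
    have h1 := (tr_unit h hb' (hBV hb)).2 ⟨hb0, hbW⟩
    exact ⟨a * b⁻¹, ⟨a, ha, b, hb, h1.1, h1.2, rfl⟩, ha'.mul (hb'.inv h.unit hb0)⟩

lemma loc_D : Loc D := by
  intro a ha
  by_cases h0 : π ⟨a, ha⟩ = 0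
  · right
    have h1 : Im π (1 - a) 1 := by
      have := (Im.one (π := π)).sub ⟨ha, h0⟩
      rwa [sub_zero] at this
    have h2 := h1.inv h.unit one_ne_zero
    exact ⟨h1.ne_zero one_ne_zero, h2.mem⟩
  · left
    have h1 : Im π a (π ⟨a, ha⟩) := ⟨ha, rfl⟩
    exact ⟨h1.ne_zero h0, (h1.inv h.unit h0).mem⟩

lemma nu_D {z : F} (hz : z ∈ D) : Pool.Agent.TH188.QS.NU D z ↔ Im π z 0 := by
  constructor
  · intro h1
    refine ⟨hz, ?_⟩
    by_contra h0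
    have h2 : Im π z (π ⟨z, hz⟩) := ⟨hz, rfl⟩
    exact h1 ⟨h2.ne_zero h0, (h2.inv h.unit h0).mem⟩
  · rintro h1 ⟨h2, h3⟩
    have h4 := Im.zero_mul h1 h3
    rw [mul_inv_cancel₀ h2] at h4
    exact one_ne_zero (Im.one.unique h4)

end tr

/-- Generators of the elements with image zero. -/
theorem exists_ker_gen {B : Subring F} [IsNoetherianRing B] (hBD : B ≤ D) :
    ∃ (n : ℕ) (y : Fin n → F), (∀ i, y i ∈ B) ∧ (∀ i, Im π (y i) 0) ∧
      ∀ w ∈ B, Im π w 0 → ∃ c : Fin n → F, (∀ i, c i ∈ B) ∧ w = ∑ i, c i * y i := by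
  classical
  let I : Ideal B := RingHom.ker (π.comp (Subring.inclusion hBD))
  obtain ⟨S, hS⟩ := (IsNoetherian.noetherian I : I.FG)
  have hS : Ideal.span (S : Set B) = I := hS
  have hSI : ∀ b ∈ S, b ∈ I := fun b hb => by rw [← hS]; exact Ideal.subset_span hb
  refine ⟨S.card, fun i => ((S.equivFin.symm i : B) : F), fun i => Subtype.coe_prop _, fun i => ?_,
    fun w hw h0 => ?_⟩
  · exact ⟨hBD (Subtype.coe_prop _), RingHom.mem_ker.1 (hSI _ (S.equivFin.symm i).2)⟩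
  · have h1 : (⟨w, hw⟩ : B) ∈ Ideal.span (S : Set B) := by
      rw [hS, RingHom.mem_ker]
      obtain ⟨h2, h3⟩ := h0
      exact h3
    have h2 : (S : Set B) = Set.range (fun i => (S.equivFin.symm i : B)) := by
      ext y
      constructor
      · intro hy
        exact ⟨S.equivFin ⟨y, hy⟩, by simp⟩
      · rintro ⟨i, rfl⟩
        exact (S.equivFin.symm i).2
    rw [h2, Ideal.mem_span_range_iff_exists_fun] at h1
    obtain ⟨c, hc⟩ := h1
    refine ⟨fun i => c i, fun i => (c i).2, ?_⟩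
    have h3 := congrArg (Subtype.val : B → F) hc
    exact h3.symm.trans (map_sum B.subtype _ _)

/-- Common denominators. -/
theorem comden_D {A : Subring F}
    (hfr : ∀ a ∈ D, ∃ b ∈ A, ∃ c ∈ A, ∃ hc : c ∈ D, π ⟨c, hc⟩ ≠ 0 ∧ a = b * c⁻¹)
    {ι : Type*} [Fintype ι] {z : ι → F} (hz : ∀ i, z i ∈ D) :
    ∃ s ∈ A, ∃ sb : L, sb ≠ 0 ∧ Im π s sb ∧ ∀ i, z i * s ∈ A := by
  classical
  choose b hb c hc hcD hcπ hbc using fun i => hfr (z i) (hz i)
  have hIm : ∀ i, Im π (c i) (π ⟨c i, hcD i⟩) := fun i => ⟨hcD i, rfl⟩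
  have hc0 : ∀ i, c i ≠ 0 := fun i => (hIm i).ne_zero (hcπ i)
  refine ⟨∏ i, c i, A.prod_mem fun i _ => hc i, ∏ i, π ⟨c i, hcD i⟩,
    Finset.prod_ne_zero_iff.2 fun i _ => hcπ i, ?_, fun i => ?_⟩
  · refine ⟨D.prod_mem fun i _ => hcD i, ?_⟩
    rw [← map_prod]
    congr 1
    apply Subtype.ext
    exact (map_prod D.subtype (fun i => (⟨c i, hcD i⟩ : D)) Finset.univ).symm
  · have h2 : ∏ k, c k = c i * ∏ k ∈ Finset.univ.erase i, c k :=
      (Finset.mul_prod_erase _ _ (Finset.mem_univ i)).symm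
    have h4 : z i * ∏ k, c k = b i * ∏ k ∈ Finset.univ.erase i, c k := by
      rw [h2, hbc i]
      have h3 := hc0 i
      field_simp
    rw [h4]
    exact A.mul_mem (hb i) (A.prod_mem fun i _ => hc i)

end Pool.Agent.Q299.RM
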