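import Pool.Agent.TH188.ARC.G9
import Pool.Agent.H176.DT.G3

/-!
# Modules whose models are regular at the centre of a valuation
-/

set_option autoImplicit false

namespace Pool.Agent.Q299.RM

open Pool.Agent.W418.LU2 Pool.Agent.TH188.QS Pool.Agent.TH188.ARC Pool.Agent.H176.DT
  Pool.Agent.H918R2.Quad Pointwise

variable {O F : Type} [CommRing O] [Field F] [Algebra O F]

/-- Spans over the image. -/
lemma mem_span_iff (S : Set F) (z : F) :
    z ∈ Submodule.span (algebraMap O F).range S ↔ z ∈ Submodule.span O S := by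
  constructor
  · intro h
    induction h using Submodule.span_induction with
    | mem x hx => exact Submodule.subset_span hx
    | zero => exact Submodule.zero_mem _
    | add a b _ _ ha hb => exact Submodule.add_mem _ ha hb
    | smul c a _ ha =>
      obtain ⟨_, o, rfl⟩ := c
      have h1 : ((⟨algebraMap O F o, o, rfl⟩ : (algebraMap O F).range) • a) = o • a :=
        (Algebra.smul_def o a).symm
      rw [h1]
      exact Submodule.smul_mem _ _ ha
  · intro h
    induction h using Submodule.span_induction with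
    | mem x hx => exact Submodule.subset_span hx
    | zero => exact Submodule.zero_mem _
    | add a b _ _ ha hb => exact Submodule.add_mem _ ha hb
    | smul c a _ ha =>
      have h1 : c • a = ((⟨algebraMap O F c, c, rfl⟩ : (algebraMap O F).range) • a) :=
        Algebra.smul_def c a
      rw [h1]
      exact Submodule.smul_mem _ _ ha

lemma mem_span_pow_iff (S : Set F) (d : ℕ) (z : F) :
    z ∈ (Submodule.span (algebraMap O F).range S) ^ d ↔ z ∈ (Submodule.span O S) ^ d := by
  rw [Submodule.span_pow, Submodule.span_pow, mem_span_iff]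

/-- The two kinds of charts. -/
lemma ch_eq (W : Set F) (w : F) :
    ch (algebraMap O F).range W w = (chart O (Submodule.span O W) w).toSubring := by
  apply le_antisymm
  · rw [Subring.closure_le]
    rintro z (⟨o, rfl⟩ | ⟨v, hv, rfl⟩)
    · exact Subalgebra.algebraMap_mem (chart O (Submodule.span O W) w) o
    · exact Algebra.subset_adjoin ⟨v, Submodule.subset_span hv, rfl⟩
  · let C : Subalgebra O F := { ch (algebraMap O F).range W w with
      algebraMap_mem' := fun o => Subring.subset_closure (Or.inl ⟨o, rfl⟩) }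
    have : chart O (Submodule.span O W) w ≤ C := Algebra.adjoin_le (by
      rintro _ ⟨m, hm, rfl⟩
      induction hm using Submodule.span_induction with
      | mem x hx => exact Subring.subset_closure (Or.inr ⟨x, hx, rfl⟩)
      | zero => rw [zero_div]; exact C.zero_mem
      | add a b _ _ ha hb => rw [add_div]; exact C.add_mem ha hb
      | smul c a _ ha =>
        rw [Algebra.smul_def, mul_div_assoc]
        exact C.mul_mem (C.algebraMap_mem c) ha)
    exact this

/-- One vertical blowing-up. -/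
theorem rg_step [IsDomain O] (hOF : Function.Injective (algebraMap O F)) {M₀ : Submodule O F}
    {D : ℕ} {M : Submodule O F} (hM : Cm M₀ D M) {V : ValuationSubring F}
    (hOV : ∀ o, algebraMap O F o ∈ V) (p : O) (hp0 : p ≠ 0)
    (hpV : ∀ z : F, ∃ n : ℕ, algebraMap O F p ^ n * z ∈ V)
    (hSU : ∀ g ∈ M, g ≠ 0 → (∀ m ∈ M, m / g ∈ V) → SU V (chart O M g).toSubring) :
    ∃ (D' : ℕ) (M' : Submodule O F), Cm M₀ D' M' ∧ Rg V M' ∧
      ∀ V' : ValuationSubring F, (∀ o, algebraMap O F o ∈ V') → (algebraMap O F p)⁻¹ ∈ V' →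
        Rg V' M → Rg V' M' := by
  classical
  obtain ⟨g₀, hg₀, hg₀0⟩ := hM.ne
  obtain ⟨g, hg, hg0, hgV⟩ := exists_gen_max hOV hM.fg hg₀ hg₀0
  obtain ⟨G, hG⟩ := hM.fg
  let W : Set F := insert g (G : Set F)
  have hWf : W.Finite := G.finite_toSet.insert g
  have hWM : Submodule.span O W = M := by
    apply le_antisymm
    · rw [Submodule.span_le]
      rintro z (rfl | hz)
      · exact hg
      · rw [← hG]; exact Submodule.subset_span hz
    · rw [← hG]
      exact Submodule.span_mono (Set.subset_insert _ _)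
  have hwW : g ∈ W := Set.mem_insert _ _
  have hWle : ∀ v ∈ W, v ∈ M := fun v hv => by rw [← hWM]; exact Submodule.subset_span hv
  have hch : ch (algebraMap O F).range W g = (chart O M g).toSubring := by rw [ch_eq, hWM]
  have hp0' : algebraMap O F p ≠ 0 := fun h => hp0 (hOF (by rw [h, map_zero]))
  obtain ⟨Y, d, n, hYf, hYd, hYp, w', hw', hw'0, hw'V, P, hP, hPr, -⟩ :=
    vert_model V (algebraMap O F).range (by rintro _ ⟨o, rfl⟩; exact hOV o) hWf hwW hg0
      (fun v hv => hgV v (hWle v hv)) (p := algebraMap O F p) ⟨p, rfl⟩ hp0' hpV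
      (by rw [hch]; exact hSU g hg hg0 hgV) ∅ Set.finite_empty (fun z hz => absurd hz (Set.notMem_empty z))
  let N : Submodule O F := Submodule.span O Y
  have hNM : N ≤ M ^ d := by
    rw [Submodule.span_le, ← hWM]
    intro y hy
    exact (mem_span_pow_iff W d y).1 (hYd hy)
  have hNp : ∀ z ∈ M ^ d, algebraMap O F p ^ n * z ∈ N := by
    intro z hz
    rw [← hWM] at hz
    exact (mem_span_iff Y _).1 (hYp z ((mem_span_pow_iff W d z).2 hz))
  have hbu : bu W Y = Y * W := by
    ext z
    constructor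
    · rintro ⟨y, hy, v, hv, rfl⟩
      exact ⟨y, hy, v, hv, rfl⟩
    · rintro ⟨y, hy, v, hv, rfl⟩
      exact ⟨y, hy, v, hv, rfl⟩
  let M' : Submodule O F := Submodule.span O (bu W Y)
  have hM' : M' = N * M := by
    change Submodule.span O (bu W Y) = _
    rw [hbu, ← hWM, Submodule.span_mul_span]
  have hM'le : M' ≤ M ^ (d + 1) := by
    rw [hM', pow_succ]
    exact Submodule.mul_le.2 fun a ha b hb => Submodule.mul_mem_mul (hNM ha) hb
  have hM'p : ∀ z ∈ M ^ (d + 1), algebraMap O F p ^ n * z ∈ M' := by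
    intro z hz
    rw [pow_succ] at hz
    rw [hM']
    refine Submodule.mul_induction_on hz (fun a ha b hb => ?_) (fun a b ha hb => ?_)
    · rw [← mul_assoc]
      exact Submodule.mul_mem_mul (hNp a ha) hb
    · rw [mul_add]
      exact Submodule.add_mem _ ha hb
  refine ⟨D * (d + 1), M', ⟨Nat.mul_pos hM.pos (Nat.succ_pos d), ?_, ?_, ?_, w', ?_, hw'0⟩, ?_, ?_⟩
  · refine Submodule.fg_span ?_
    rw [hbu]
    exact hYf.mul hWf
  · refine hM'le.trans ?_
    rw [pow_mul]
    exact pow_le_pow' hM.le _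
  · intro y hy
    rw [pow_mul] at hy
    obtain ⟨s, hs0, hs⟩ := exists_smul_mem_pow' (fun z hz => hM.comm z hz) (d + 1) y hy
    refine ⟨p ^ n * s, mul_ne_zero (pow_ne_zero n hp0) hs0, ?_⟩
    rw [mul_smul, Algebra.smul_def, map_pow]
    exact hM'p _ hs
  · exact Submodule.subset_span hw'
  · refine ⟨w', Submodule.subset_span hw', hw'0, fun m hm => ?_, ?_⟩
    · change m ∈ Submodule.span O (bu W Y) at hm
      induction hm using Submodule.span_induction with
      | mem x hx => exact hw'V x hx
      | zero => rw [zero_div]; exact V.zero_mem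
      | add a b _ _ ha hb => rw [add_div]; exact V.add_mem _ _ ha hb
      | smul c a _ ha =>
        rw [Algebra.smul_def, mul_div_assoc]
        exact V.mul_mem _ _ (hOV c) ha
    · rw [← ch_eq, hP]
      exact hPr
  · intro V' hOV' hpV' ⟨g₁, hg₁, hg₁0, hg₁V, hreg⟩
    have hpn0 : algebraMap O F p ^ n ≠ 0 := pow_ne_zero n hp0'
    have hpnV : (algebraMap O F p ^ n)⁻¹ ∈ V' := by
      rw [← inv_pow]
      exact pow_mem hpV' n
    set g' : F := algebraMap O F p ^ n * g₁ ^ (d + 1) with hg'
    have hg'M : g' ∈ M' := hM'p _ (Submodule.pow_mem_pow M hg₁ (d + 1))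
    have hg'0 : g' ≠ 0 := mul_ne_zero hpn0 (pow_ne_zero _ hg₁0)
    have hCV : (chart O M g₁).toSubring ≤ V'.toSubring := chart_le_V hOV' hg₁V
    have hm' : ∀ m ∈ M', m / g' = m / g₁ ^ (d + 1) * (algebraMap O F p ^ n)⁻¹ := by
      intro m hm
      rw [hg', div_mul_eq_div_div_swap, div_eq_mul_inv (m / g₁ ^ (d + 1))]
    have hm'C : ∀ m ∈ M', m / g₁ ^ (d + 1) ∈ chart O M g₁ := fun m hm =>
      pow_div_mem hg₁0 (d + 1) m (hM'le hm)
    have hM'V : ∀ m ∈ M', m / g' ∈ V' := by
      intro m hm
      rw [hm' m hm]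
      exact V'.mul_mem _ _ (hCV (hm'C m hm)) hpnV
    refine ⟨g', hg'M, hg'0, hM'V, ?_⟩
    have hC'V : (chart O M' g').toSubring ≤ V'.toSubring := chart_le_V hOV' hM'V
    have h1 : (chart O M' g').toSubring ≤ lo V'.toSubring (chart O M g₁).toSubring := by
      let C : Subalgebra O F := { lo V'.toSubring (chart O M g₁).toSubring with
        algebraMap_mem' := fun o => le_lo _ _ (Subalgebra.algebraMap_mem (chart O M g₁) o) }
      have : chart O M' g' ≤ C := Algebra.adjoin_le (by
        rintro _ ⟨m, hm, rfl⟩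
        refine ⟨m / g₁ ^ (d + 1), hm'C m hm, algebraMap O F p ^ n, ?_, hpn0, hpnV, hm' m hm⟩
        exact (chart O M g₁).toSubring.pow_mem
          (Subalgebra.algebraMap_mem (chart O M g₁) p) n)
      exact this
    have h2 : (chart O M g₁).toSubring ≤ (chart O M' g').toSubring := by
      have : chart O M g₁ ≤ chart O M' g' := Algebra.adjoin_le (by
        rintro _ ⟨m, hm, rfl⟩
        refine Algebra.subset_adjoin ⟨algebraMap O F p ^ n * (g₁ ^ d * m), hM'p _ ?_, ?_⟩
        · rw [pow_succ]
          exact Submodule.mul_mem_mul (Submodule.pow_mem_pow M hg₁ d) hm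
        · rw [hg', pow_succ, mul_div_mul_left _ _ hpn0, mul_div_mul_left _ _ (pow_ne_zero _ hg₁0)])
      exact this
    have h3 : lo V'.toSubring (chart O M' g').toSubring =
        lo V'.toSubring (chart O M g₁).toSubring :=
      le_antisymm (lo_le_lo hCV h1) (lo_le_lo hC'V (h2.trans (le_lo _ _)))
    rw [h3]
    exact hreg

/-- Finitely many valuations with comaximal centres on the base. -/
theorem rg_family [IsDomain O] (hOF : Function.Injective (algebraMap O F)) {M₀ : Submodule O F}
    (hM₀ : M₀.FG) (hne : ∃ g ∈ M₀, g ≠ 0) (S : Finset (ValuationSubring F))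
    (hOV : ∀ V ∈ S, ∀ o, algebraMap O F o ∈ V)
    (hp : ∀ V ∈ S, ∃ p : O, p ≠ 0 ∧ (∀ z : F, ∃ n : ℕ, algebraMap O F p ^ n * z ∈ V) ∧
      ∀ V' ∈ S, V' ≠ V → (algebraMap O F p)⁻¹ ∈ V')
    (hSU : ∀ V ∈ S, ∀ (D : ℕ) (M : Submodule O F), Cm M₀ D M → ∀ g ∈ M, g ≠ 0 →
      (∀ m ∈ M, m / g ∈ V) → SU V (chart O M g).toSubring) :
    ∃ (D : ℕ) (M : Submodule O F), Cm M₀ D M ∧ ∀ V ∈ S, Rg V M := by
  classical
  have key : ∀ T : Finset (ValuationSubring F), T ⊆ S →
      ∃ (D : ℕ) (M : Submodule O F), Cm M₀ D M ∧ ∀ V ∈ T, Rg V M := by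
    intro T
    induction T using Finset.induction_on with
    | empty =>
      intro _
      exact ⟨1, M₀, Cm.init hM₀ hne, fun V hV => absurd hV (Finset.notMem_empty V)⟩
    | insert V T hVT ih =>
      intro hTS
      obtain ⟨D, M, hM, hR⟩ := ih fun V' hV' => hTS (Finset.mem_insert_of_mem hV')
      have hVS : V ∈ S := hTS (Finset.mem_insert_self V T)
      obtain ⟨p, hp0, hpV, hpV'⟩ := hp V hVS
      obtain ⟨D', M', hM', hRV, hR'⟩ := rg_step hOF hM (hOV V hVS) p hp0 hpV
        (hSU V hVS D M hM)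
      refine ⟨D', M', hM', fun V' hV' => ?_⟩
      rcases Finset.mem_insert.1 hV' with rfl | hV'T
      · exact hRV
      · have hV'S : V' ∈ S := hTS hV'
        exact hR' V' (hOV V' hV'S) (hpV' V' hV'S (by rintro rfl; exact hVT hV'T)) (hR V' hV'T)
  exact key S subset_rfl

end Pool.Agent.Q299.RM
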