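import Pool.Agent.Q299.RM.Mod

/-!
# Modules attached to vertical blowing-ups
-/

set_option autoImplicit false
set_option linter.unusedSectionVars false

universe u

namespace Pool.Agent.Q299.RM

open Pool.Agent.W418.LU2 Pool.Agent.TH188.QS Pool.Agent.TH188.ARC Pool.Agent.H176.DT
  Pool.Agent.H918R2.Quad Pointwise

section model

variable {K : Type u} [Field K] (V : ValuationSubring K) (O : Subring K)

/-- The models. -/
theorem model_stage' (hO : ∀ a ∈ O, a ∈ V) {W : Set K} (hWf : W.Finite) {w : K} (hw : w ∈ W)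
    (hw0 : w ≠ 0) (hwV : ∀ v ∈ W, v / w ∈ V) {p : K} (hpO : p ∈ O) {T : Set K}
    (hTf : T.Finite) (hTV : ∀ t ∈ T, t ∈ V) {β : K} (hβA : β ∈ ch O W w) (hβ0 : β ≠ 0)
    (hTβ : ∀ t ∈ T, β * t ∈ ch O W w) {n : ℕ} (hn : p ^ n * β⁻¹ ∈ PP V (ch O W w) T) :
    ∃ (Y : Set K) (d n : ℕ), Y.Finite ∧
      Y ⊆ ((Submodule.span O W) ^ d : Submodule O K) ∧
      (∀ z ∈ (Submodule.span O W) ^ d, p ^ n * z ∈ Submodule.span O Y) ∧
      ∃ w' ∈ bu W Y, w' ≠ 0 ∧ (∀ v ∈ bu W Y, v / w' ∈ V) ∧
        lo V.toSubring (ch O (bu W Y) w') = PP V (ch O W w) T := by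
  classical
  set A := ch O W w with hA
  set P := PP V A T with hP
  have hAV : A ≤ V.toSubring := by
    rw [hA, Subring.closure_le]
    rintro z (hz | ⟨v, hv, rfl⟩)
    · exact hO z hz
    · exact hwV v hv
  have hclV : Subring.closure ((A : Set K) ∪ T) ≤ V.toSubring := by
    rw [Subring.closure_le]
    rintro z (hz | hz)
    · exact hAV hz
    · exact hTV z hz
  have hBP : Subring.closure ((A : Set K) ∪ T) ≤ P := le_lo _ _
  have hPV : P ≤ V.toSubring := lo_le hclV
  have hAP : A ≤ P := fun a ha => hBP (Subring.subset_closure (Or.inl ha))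
  have hTP : ∀ t ∈ T, t ∈ P := fun t ht => hBP (Subring.subset_closure (Or.inr ht))
  -- the degree
  obtain ⟨d, hdβ, hdT⟩ : ∃ d : ℕ, β * w ^ d ∈ (Submodule.span O W) ^ d ∧
      ∀ t ∈ T, β * t * w ^ d ∈ (Submodule.span O W) ^ d := by
    obtain ⟨d₀, hd₀⟩ := ch_form O hw hw0 hβA
    have h1 : ∀ t, ∃ d₁ : ℕ, t ∈ T → ∀ d, d₁ ≤ d → β * t * w ^ d ∈ (Submodule.span O W) ^ d := by
      intro t
      by_cases ht : t ∈ T
      · obtain ⟨d₁, hd₁⟩ := ch_form O hw hw0 (hTβ t ht)
        exact ⟨d₁, fun _ => hd₁⟩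
      · exact ⟨0, fun h => absurd h ht⟩
    choose e he using h1
    refine ⟨d₀ + ∑ t ∈ hTf.toFinset, e t, hd₀ _ (Nat.le_add_right _ _), fun t ht => ?_⟩
    refine he t ht _ ?_
    have h2 : e t ≤ ∑ t ∈ hTf.toFinset, e t :=
      Finset.single_le_sum (f := e) (fun _ _ => Nat.zero_le _) (hTf.mem_toFinset.2 ht)
    exact h2.trans (Nat.le_add_left _ _)
  set M := Submodule.span O W with hM
  set b := β * w ^ d with hb
  have hb0 : b ≠ 0 := mul_ne_zero hβ0 (pow_ne_zero _ hw0)
  set Y : Set K := ({b} ∪ (fun t => β * t * w ^ d) '' T) ∪ (fun z => p ^ n * z) '' (W ^ d) with hY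
  have hWfin : (W ^ d).Finite := by
    have h1 : ∀ e : ℕ, (W ^ e).Finite := by
      intro e
      induction e with
      | zero => rw [pow_zero]; exact Set.finite_one
      | succ e ih => rw [pow_succ]; exact ih.mul hWf
    exact h1 _
  have hmemP : ∀ v ∈ bu W Y, v / (b * w) ∈ P := by
    rintro _ ⟨y, ((hy | ⟨t, ht, rfl⟩) | ⟨m, hm, rfl⟩), z, hz, rfl⟩
    · rw [Set.mem_singleton_iff.1 hy, mul_div_mul_left _ _ hb0]
      exact hAP (Subring.subset_closure (Or.inr ⟨z, hz, rfl⟩))
    · have h1 : β * t * w ^ d * z / (b * w) = t * (z / w) := by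
        rw [hb]
        have hwd := pow_ne_zero d hw0
        field_simp
      change β * t * w ^ d * z / (b * w) ∈ P
      rw [h1]
      exact P.mul_mem (hTP t ht) (hAP (Subring.subset_closure (Or.inr ⟨z, hz, rfl⟩)))
    · have h1 : p ^ n * m * z / (b * w) = p ^ n * β⁻¹ * (m / w ^ d) * (z / w) := by
        rw [hb]
        have hwd := pow_ne_zero d hw0
        field_simp
      change p ^ n * m * z / (b * w) ∈ P
      rw [h1]
      exact P.mul_mem (P.mul_mem hn (hAP (set_pow_form O d m hm)))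
        (hAP (Subring.subset_closure (Or.inr ⟨z, hz, rfl⟩)))
  have hbw : b * w ∈ bu W Y := ⟨b, Or.inl (Or.inl rfl), w, hw, rfl⟩
  refine ⟨Y, d, n, ?_, ?_, ?_, b * w, hbw, mul_ne_zero hb0 hw0, fun v hv => hPV (hmemP v hv), ?_⟩
  · exact ((Set.finite_singleton _).union (hTf.image _)).union (hWfin.image _)
  · rintro z ((hz | ⟨t, ht, rfl⟩) | ⟨v, hv, rfl⟩)
    · rw [Set.mem_singleton_iff.1 hz]
      exact hdβ
    · exact hdT t ht
    · rw [hM, Submodule.span_pow]
      exact Submodule.smul_mem _ (⟨p ^ n, O.pow_mem hpO n⟩ : O) (Submodule.subset_span hv)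
  · intro z hz
    rw [hM, Submodule.span_pow] at hz
    induction hz using Submodule.span_induction with
    | mem z hz => exact Submodule.subset_span (Or.inr ⟨z, hz, rfl⟩)
    | zero => rw [mul_zero]; exact Submodule.zero_mem _
    | add a c _ _ ha hc => rw [mul_add]; exact Submodule.add_mem _ ha hc
    | smul c a _ ha =>
      rw [mul_smul_comm]
      exact Submodule.smul_mem _ _ ha
  · refine lo_eq hclV ?_ ?_
    · rw [Subring.closure_le]
      have h1 : A ≤ ch O (bu W Y) (b * w) := by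
        rw [hA, Subring.closure_le]
        rintro z (hz | ⟨v, hv, rfl⟩)
        · exact Subring.subset_closure (Or.inl hz)
        · refine Subring.subset_closure (Or.inr ⟨b * v, ⟨b, Or.inl (Or.inl rfl), v, hv, rfl⟩, ?_⟩)
          rw [mul_div_mul_left _ _ hb0]
      rintro z (hz | hz)
      · exact h1 hz
      · refine Subring.subset_closure (Or.inr ⟨β * z * w ^ d * w, ⟨β * z * w ^ d,
          Or.inl (Or.inr ⟨z, hz, rfl⟩), w, hw, rfl⟩, ?_⟩)
        rw [hb]
        have hwd := pow_ne_zero d hw0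
        field_simp
    · rw [Subring.closure_le]
      rintro z (hz | ⟨v, hv, rfl⟩)
      · exact hAP (Subring.subset_closure (Or.inl hz))
      · exact hmemP v hv

end model

variable {O F : Type} [CommRing O] [Field F] [Algebra O F]

/-- A vertical blowing-up with a regular local ring. -/
def HasStage (V : ValuationSubring F) (p : F) (A : Subring F) : Prop :=
  ∃ (T : Set F) (β : F) (n : ℕ), T.Finite ∧ β ∈ A ∧ β ≠ 0 ∧ (∀ t ∈ T, β * t ∈ A) ∧
    (∀ t ∈ T, t ∈ V) ∧ p ^ n * β⁻¹ ∈ PP V A T ∧ IsRegularLocalRing (PP V A T)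

/-- One vertical blowing-up. -/
theorem rg_step' [IsDomain O] (hOF : Function.Injective (algebraMap O F)) {M₀ : Submodule O F}
    {D : ℕ} {M : Submodule O F} (hM : Cm M₀ D M) {V : ValuationSubring F}
    (hOV : ∀ o, algebraMap O F o ∈ V) (p : O) (hp0 : p ≠ 0)
    (hst : ∀ g ∈ M, g ≠ 0 → (∀ m ∈ M, m / g ∈ V) →
      HasStage V (algebraMap O F p) (chart O M g).toSubring) :
    ∃ (D' : ℕ) (M' : Submodule O F), Cm M₀ D' M' ∧ Rg V M' ∧
      ∀ V' : ValuationSubring F, (∀ o, algebraMap O F o ∈ V') → (algebraMap O F p)⁻¹ ∈ V' →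
        Rg V' M → Rg V' M' := by
  classical
  obtain ⟨g₀, hg₀, hg₀0⟩ := hM.ne
  obtain ⟨g, hg, hg0, hgV⟩ := exists_gen_max hOV hM.fg hg₀ hg₀0
  obtain ⟨G, hG⟩ := hM.fg
  let W : Set F := insert g (G : Set F)
  have hWf : W.Finite := G.finite_toSet.insert g
  have hWM : Submodule.span O W = M := by
    apply le_antisymm
    · rw [Submodule.span_le]
      rintro z (rfl | hz)
      · exact hg
      · rw [← hG]; exact Submodule.subset_span hz
    · rw [← hG]
      exact Submodule.span_mono (Set.subset_insert _ _)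
  have hwW : g ∈ W := Set.mem_insert _ _
  have hWle : ∀ v ∈ W, v ∈ M := fun v hv => by rw [← hWM]; exact Submodule.subset_span hv
  have hch : ch (algebraMap O F).range W g = (chart O M g).toSubring := by rw [ch_eq, hWM]
  have hp0' : algebraMap O F p ≠ 0 := fun h => hp0 (hOF (by rw [h, map_zero]))
  obtain ⟨T, β, n₀, hTf, hβA, hβ0, hTβ, hTV, hn₀, hPr⟩ := hst g hg hg0 hgV
  rw [← hch] at hβA hTβ hn₀ hPr
  obtain ⟨Y, d, n, hYf, hYd, hYp, w', hw', hw'0, hw'V, hP⟩ :=
    model_stage' V (algebraMap O F).range (by rintro _ ⟨o, rfl⟩; exact hOV o) hWf hwW hg0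
      (fun v hv => hgV v (hWle v hv)) (p := algebraMap O F p) ⟨p, rfl⟩ hTf hTV hβA hβ0 hTβ hn₀
  let N : Submodule O F := Submodule.span O Y
  have hNM : N ≤ M ^ d := by
    rw [Submodule.span_le, ← hWM]
    intro y hy
    exact (mem_span_pow_iff W d y).1 (hYd hy)
  have hNp : ∀ z ∈ M ^ d, algebraMap O F p ^ n * z ∈ N := by
    intro z hz
    rw [← hWM] at hz
    exact (mem_span_iff Y _).1 (hYp z ((mem_span_pow_iff W d z).2 hz))
  have hbu : bu W Y = Y * W := by
    ext z
    constructor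
    · rintro ⟨y, hy, v, hv, rfl⟩
      exact ⟨y, hy, v, hv, rfl⟩
    · rintro ⟨y, hy, v, hv, rfl⟩
      exact ⟨y, hy, v, hv, rfl⟩
  let M' : Submodule O F := Submodule.span O (bu W Y)
  have hM' : M' = N * M := by
    change Submodule.span O (bu W Y) = _
    rw [hbu, ← hWM, Submodule.span_mul_span]
  have hM'le : M' ≤ M ^ (d + 1) := by
    rw [hM', pow_succ]
    exact Submodule.mul_le.2 fun a ha b hb => Submodule.mul_mem_mul (hNM ha) hb
  have hM'p : ∀ z ∈ M ^ (d + 1), algebraMap O F p ^ n * z ∈ M' := by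
    intro z hz
    rw [pow_succ] at hz
    rw [hM']
    refine Submodule.mul_induction_on hz (fun a ha b hb => ?_) (fun a b ha hb => ?_)
    · rw [← mul_assoc]
      exact Submodule.mul_mem_mul (hNp a ha) hb
    · rw [mul_add]
      exact Submodule.add_mem _ ha hb
  refine ⟨D * (d + 1), M', ⟨Nat.mul_pos hM.pos (Nat.succ_pos d), ?_, ?_, ?_, w', ?_, hw'0⟩, ?_, ?_⟩
  · refine Submodule.fg_span ?_
    rw [hbu]
    exact hYf.mul hWf
  · refine hM'le.trans ?_
    rw [pow_mul]
    exact pow_le_pow' hM.le _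
  · intro y hy
    rw [pow_mul] at hy
    obtain ⟨s, hs0, hs⟩ := exists_smul_mem_pow' (fun z hz => hM.comm z hz) (d + 1) y hy
    refine ⟨p ^ n * s, mul_ne_zero (pow_ne_zero n hp0) hs0, ?_⟩
    rw [mul_smul, Algebra.smul_def, map_pow]
    exact hM'p _ hs
  · exact Submodule.subset_span hw'
  · refine ⟨w', Submodule.subset_span hw', hw'0, fun m hm => ?_, ?_⟩
    · change m ∈ Submodule.span O (bu W Y) at hm
      induction hm using Submodule.span_induction with
      | mem x hx => exact hw'V x hx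
      | zero => rw [zero_div]; exact V.zero_mem
      | add a b _ _ ha hb => rw [add_div]; exact V.add_mem _ _ ha hb
      | smul c a _ ha =>
        rw [Algebra.smul_def, mul_div_assoc]
        exact V.mul_mem _ _ (hOV c) ha
    · rw [← ch_eq, hP]
      exact hPr
  · intro V' hOV' hpV' ⟨g₁, hg₁, hg₁0, hg₁V, hreg⟩
    have hpn0 : algebraMap O F p ^ n ≠ 0 := pow_ne_zero n hp0'
    have hpnV : (algebraMap O F p ^ n)⁻¹ ∈ V' := by
      rw [← inv_pow]
      exact pow_mem hpV' n
    set g' : F := algebraMap O F p ^ n * g₁ ^ (d + 1) with hg'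
    have hg'M : g' ∈ M' := hM'p _ (Submodule.pow_mem_pow M hg₁ (d + 1))
    have hg'0 : g' ≠ 0 := mul_ne_zero hpn0 (pow_ne_zero _ hg₁0)
    have hCV : (chart O M g₁).toSubring ≤ V'.toSubring := chart_le_V hOV' hg₁V
    have hm' : ∀ m ∈ M', m / g' = m / g₁ ^ (d + 1) * (algebraMap O F p ^ n)⁻¹ := by
      intro m hm
      rw [hg', div_mul_eq_div_div_swap, div_eq_mul_inv (m / g₁ ^ (d + 1))]
    have hm'C : ∀ m ∈ M', m / g₁ ^ (d + 1) ∈ chart O M g₁ := fun m hm =>
      pow_div_mem hg₁0 (d + 1) m (hM'le hm)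
    have hM'V : ∀ m ∈ M', m / g' ∈ V' := by
      intro m hm
      rw [hm' m hm]
      exact V'.mul_mem _ _ (hCV (hm'C m hm)) hpnV
    refine ⟨g', hg'M, hg'0, hM'V, ?_⟩
    have hC'V : (chart O M' g').toSubring ≤ V'.toSubring := chart_le_V hOV' hM'V
    have h1 : (chart O M' g').toSubring ≤ lo V'.toSubring (chart O M g₁).toSubring := by
      let C : Subalgebra O F := { lo V'.toSubring (chart O M g₁).toSubring with
        algebraMap_mem' := fun o => le_lo _ _ (Subalgebra.algebraMap_mem (chart O M g₁) o) }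
      have : chart O M' g' ≤ C := Algebra.adjoin_le (by
        rintro _ ⟨m, hm, rfl⟩
        refine ⟨m / g₁ ^ (d + 1), hm'C m hm, algebraMap O F p ^ n, ?_, hpn0, hpnV, hm' m hm⟩
        exact (chart O M g₁).toSubring.pow_mem
          (Subalgebra.algebraMap_mem (chart O M g₁) p) n)
      exact this
    have h2 : (chart O M g₁).toSubring ≤ (chart O M' g').toSubring := by
      have : chart O M g₁ ≤ chart O M' g' := Algebra.adjoin_le (by
        rintro _ ⟨m, hm, rfl⟩
        refine Algebra.subset_adjoin ⟨algebraMap O F p ^ n * (g₁ ^ d * m), hM'p _ ?_, ?_⟩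
        · rw [pow_succ]
          exact Submodule.mul_mem_mul (Submodule.pow_mem_pow M hg₁ d) hm
        · rw [hg', pow_succ, mul_div_mul_left _ _ hpn0, mul_div_mul_left _ _ (pow_ne_zero _ hg₁0)])
      exact this
    have h3 : lo V'.toSubring (chart O M' g').toSubring =
        lo V'.toSubring (chart O M g₁).toSubring :=
      le_antisymm (lo_le_lo hCV h1) (lo_le_lo hC'V (h2.trans (le_lo _ _)))
    rw [h3]
    exact hreg

/-- Finitely many valuations with comaximal centres on the base. -/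
theorem rg_family' [IsDomain O] (hOF : Function.Injective (algebraMap O F)) {M₀ : Submodule O F}
    (hM₀ : M₀.FG) (hne : ∃ g ∈ M₀, g ≠ 0) {ι : Type} [Finite ι] (V : ι → ValuationSubring F)
    (p : ι → O) (hp0 : ∀ t, p t ≠ 0) (hOV : ∀ t o, algebraMap O F o ∈ V t)
    (hp : ∀ t t', t ≠ t' → (algebraMap O F (p t))⁻¹ ∈ V t')
    (hst : ∀ (t : ι) (D : ℕ) (M : Submodule O F), Cm M₀ D M → ∀ g ∈ M, g ≠ 0 →
      (∀ m ∈ M, m / g ∈ V t) → HasStage (V t) (algebraMap O F (p t)) (chart O M g).toSubring) :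
    ∃ (D : ℕ) (M : Submodule O F), Cm M₀ D M ∧ ∀ t, Rg (V t) M := by
  classical
  have := Fintype.ofFinite ι
  have key : ∀ T : Finset ι, ∃ (D : ℕ) (M : Submodule O F), Cm M₀ D M ∧ ∀ t ∈ T, Rg (V t) M := by
    intro T
    induction T using Finset.induction_on with
    | empty => exact ⟨1, M₀, Cm.init hM₀ hne, fun t ht => absurd ht (Finset.notMem_empty t)⟩
    | insert t T htT ih =>
      obtain ⟨D, M, hM, hR⟩ := ih
      obtain ⟨D', M', hM', hRV, hR'⟩ := rg_step' hOF hM (hOV t) (p t) (hp0 t) (hst t D M hM)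
      refine ⟨D', M', hM', fun t' ht' => ?_⟩
      rcases Finset.mem_insert.1 ht' with rfl | ht'T
      · exact hRV
      · exact hR' _ (hOV t') (hp t t' (by rintro rfl; exact htT ht'T)) (hR t' ht'T)
  obtain ⟨D, M, hM, hR⟩ := key Finset.univ
  exact ⟨D, M, hM, fun t => hR t (Finset.mem_univ t)⟩

end Pool.Agent.Q299.RM
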