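import Pool.Agent.Q299.RM.Mod2
import Pool.Agent.Q299.RM.Core
import Pool.Agent.Q299.TD.Cls

/-!
# Models over a point of the generic fibre
-/

set_option autoImplicit false

namespace Pool.Agent.Q299.RM

open Pool.Agent.W418.LU2 Pool.Agent.TH188.QS Pool.Agent.TH188.ARC Pool.Agent.H176.DT
  Pool.Agent.H918R2.Quad Pointwise
open Pool.Agent.Q299.TD (AllGP su_of_gp)

variable {O F L : Type} [CommRing O] [Field F] [Algebra O F] [Field L]

/-- The images of noetherian rings. -/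
lemma noeth_imr {D : Subring F} {π : D →+* L} {A : Subring F} [IsNoetherianRing A] (hAD : A ≤ D) :
    IsNoetherianRing (imr π A) := by
  let θ : A →+* imr π A := (π.comp (Subring.inclusion hAD)).codRestrict (imr π A) fun a =>
    ⟨a, a.2, hAD a.2, rfl⟩
  refine isNoetherianRing_of_surjective A (imr π A) θ ?_
  rintro ⟨w, a, ha, h1, h2⟩
  exact ⟨⟨a, ha⟩, Subtype.ext h2⟩

/-- Stages over the charts at the centres of valuations of the residue field of a regular point of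
the generic fibre. -/
theorem hasStage_of_pt [IsDomain O] [IsNoetherianRing O] {M₀ : Submodule O F} {d : ℕ}
    {M : Submodule O F} (hM : Cm M₀ d M) {D : Subring F} {π : D →+* L} {y₀ : F}
    (h : Pt M₀ D π y₀) {W : ValuationSubring L} {V : ValuationSubring F} (hV : Tr D π W V)
    (hπ : Function.Surjective π) (hOV : ∀ o, algebraMap O F o ∈ V) (p : O) (hp0 : p ≠ 0)
    {σ : O →+* L} (hσ : ∀ o, π ⟨_, h.OA o⟩ = σ o) (hpW : ∀ z : L, ∃ n : ℕ, σ p ^ n * z ∈ W)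
    (hW : AllGP σ W) {g : F} (hg : g ∈ M) (hg0 : g ≠ 0) (hgV : ∀ m ∈ M, m / g ∈ V) :
    HasStage V (algebraMap O F p) (chart O M g).toSubring := by
  classical
  obtain ⟨hMD, hfr⟩ := frac_chart hV h.OA h.OL h.mem h.ne h.MA h.fr hM.pos hM.le hM.comm hg hg0 hgV
  set A := (chart O M g).toSubring with hA
  have hAD : A ≤ D := chart_le_A h.OA hMD
  have hAV : A ≤ V.toSubring := chart_le_V hOV hgV
  have hN : IsNoetherianRing A := chart_noeth hM.fg g
  have hσI : ∀ o, Im π (algebraMap O F o) (σ o) := fun o => ⟨h.OA o, hσ o⟩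
  have hσp : σ p ≠ 0 := by
    rw [← hσ p]
    exact h.OL p hp0
  have hfr' : ∀ a ∈ D, ∃ b ∈ A, ∃ c ∈ A, ∃ hc : c ∈ D, π ⟨c, hc⟩ ≠ 0 ∧ a = b * c⁻¹ := hfr
  -- the image of the chart
  obtain ⟨G, hG⟩ := hM.fg
  have hGD : ∀ v ∈ G, v / g ∈ D := fun v hv => hMD v (by rw [← hG]; exact Submodule.subset_span hv)
  let φ : F → L := fun z => if hz : z ∈ D then π ⟨z, hz⟩ else 0
  have hφ : ∀ z ∈ D, Im π z (φ z) := fun z hz => by
    have h1 : φ z = π ⟨z, hz⟩ := dif_pos hz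
    rw [h1]
    exact ⟨hz, rfl⟩
  let T : Set L := (fun v => φ (v / g)) '' (G : Set F)
  have hT : T.Finite := G.finite_toSet.image _
  have hcl : A = Subring.closure (((algebraMap O F).range : Set F) ∪
      {z | ∃ v ∈ (G : Set F), z = v / g}) := by
    rw [hA, ← hG]
    exact (ch_eq (G : Set F) g).symm
  have him : imr π A = Subring.closure ((σ.range : Set L) ∪ T) := by
    rw [hcl]
    refine imr_closure ?_ ?_
    · rintro z (⟨o, rfl⟩ | ⟨v, hv, rfl⟩)
      · exact ⟨σ o, Or.inl ⟨o, rfl⟩, hσI o⟩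
      · exact ⟨_, Or.inr ⟨v, hv, rfl⟩, hφ _ (hGD v hv)⟩
    · rintro w (⟨o, rfl⟩ | ⟨v, hv, rfl⟩)
      · exact ⟨_, Or.inl ⟨o, rfl⟩, hσI o⟩
      · exact ⟨_, Or.inr ⟨v, hv, rfl⟩, hφ _ (hGD v hv)⟩
  have hMod : Mod W (imr π A) := by
    refine ⟨?_, fun z => ?_⟩
    · rintro w ⟨a, ha, haw⟩
      exact (tr_mem hV haw).1 (hAV ha)
    · obtain ⟨⟨a, ha⟩, rfl⟩ := hπ z
      obtain ⟨b, hb, c, hc, hcD, hcπ, habc⟩ := hfr' a ha
      have hcI : Im π c (π ⟨c, hcD⟩) := ⟨hcD, rfl⟩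
      have hbI : Im π b (π ⟨b, hAD hb⟩) := ⟨hAD hb, rfl⟩
      refine ⟨_, ⟨b, hb, hbI⟩, _, ⟨c, hc, hcI⟩, hcπ, ?_⟩
      have h1 : Im π a (π ⟨a, ha⟩) := ⟨ha, rfl⟩
      have h2 := hbI.mul (hcI.inv h.unit hcπ)
      rw [← habc] at h2
      exact h1.unique h2
  have hSU : SU W (imr π A) := by
    have hN' : IsNoetherianRing (imr π A) := noeth_imr hAD
    refine su_of_gp hMod ?_
    have h2 := hW _ hT (by rw [← him]; exact hMod)
    rwa [← him] at h2
  exact core hV h.reg hAD hAV hfr' (Subalgebra.algebraMap_mem (chart O M g) p) (hσI p) hσp hpW hSU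

end Pool.Agent.Q299.RM
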