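import Pool.Agent.Q299.RM.Im

/-!
# Regularity of a local ring with a regular quotient and a regular localization
-/

set_option autoImplicit false

universe u

namespace Pool.Agent.Q299.RM

open Pool.Agent.W418.LU2 Pool.Agent.TH188.QS Pool.Agent.TH188.ARC IsLocalRing

variable {F L : Type u} [Field F] [Field L] {D : Subring F} {π : D →+* L}
  {W : ValuationSubring L} {V : ValuationSubring F}

/-- A local ring is regular if the kernel is generated by sufficiently few elements and the quotient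
is regular. -/
theorem regular_core (h : Tr D π W V) {B : Subring F} [IsNoetherianRing B] (hBD : B ≤ D)
    (hBV : B ≤ V.toSubring)
    (hfr : ∀ a ∈ D, ∃ b ∈ B, ∃ c ∈ B, ∃ hc : c ∈ D, π ⟨c, hc⟩ ≠ 0 ∧ a = b * c⁻¹)
    {κ : Type} [Fintype κ] {z : κ → F} (hzB : ∀ i, z i ∈ lo V.toSubring B)
    (hz0 : ∀ i, Im π (z i) 0)
    (hgen : ∀ w ∈ lo V.toSubring B, Im π w 0 → ∃ c : κ → F, (∀ i, c i ∈ lo V.toSubring B) ∧
      w = ∑ i, c i * z i)
    (hdim : ((Fintype.card κ : ℕ) : WithBot ℕ∞) ≤ ringKrullDim D)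
    (hQ : IsRegularLocalRing (lo W.toSubring (imr π B))) :
    IsRegularLocalRing (lo V.toSubring B) := by
  classical
  set P := lo V.toSubring B with hP
  have hPD : P ≤ D := lo_le_D h hBD hBV
  have hPV : P ≤ V.toSubring := lo_le hBV
  have hBP : B ≤ P := le_lo _ _
  have hIC : IC V.toSubring P := ic_lo hBV
  have hnoeP : IsNoetherianRing P := noeth_lo hBV
  have hlocP : IsLocalRing P := isLocalRing_lo (loc_V V) hBV
  -- the quotient
  set Pb := lo W.toSubring (imr π B) with hPb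
  have hPbP : imr π P = Pb := imr_lo h hBD hBV
  have himW : imr π B ≤ W.toSubring := by
    rintro w ⟨y, hy, hyw⟩
    exact (tr_mem h hyw).1 (hBV hy)
  have hPbW : Pb ≤ W.toSubring := lo_le himW
  have hICb : IC W.toSubring Pb := ic_lo himW
  have hreg₀ : RegP W.toSubring Pb (Empty.elim : Empty → L) := RegP.of_reg hPbW hICb hQ
  obtain ⟨ι₂, _, yb, hreg₂, hyn, hgen₂, -, hdim₂⟩ := norm_params hreg₀
  have hy' : ∀ j, ∃ y ∈ P, Im π y (yb j) := by
    intro j
    have h1 := hreg₂.mem j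
    rw [← hPbP] at h1
    exact h1
  choose y hyP hyr using hy'
  -- the maximal ideal
  have hmax : ∀ x ∈ P, NU V.toSubring x → ∃ (c₁ : κ → F) (c₂ : ι₂ → F), (∀ i, c₁ i ∈ P) ∧
      (∀ j, c₂ j ∈ P) ∧ x = ∑ i, c₁ i * z i + ∑ j, c₂ j * y j := by
    intro x hx hxn
    have hxr : Im π x (π ⟨x, hPD hx⟩) := ⟨hPD hx, rfl⟩
    set xb := π ⟨x, hPD hx⟩ with hxb
    have h1 : xb ∈ Pb := by rw [← hPbP]; exact ⟨x, hx, hxr⟩
    have h2 : NU W.toSubring xb := (tr_nu h hxr (hPV hx)).1 hxn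
    obtain ⟨c, hc, hzc⟩ := hgen₂ xb h1 h2
    have h3 : ∀ j, c j ∈ imr π P := fun j => by rw [hPbP]; exact hc j
    choose c₂ hc₂ hc₂r using h3
    have h4 : Im π (x - ∑ j, c₂ j * y j) 0 := by
      have e1 := hxr.sub (Im.sum Finset.univ fun j _ => (hc₂r j).mul (hyr j))
      have e2 : xb - ∑ j, c j * yb j = 0 := by
        rw [hzc, sub_self]
      rw [e2] at e1
      exact e1
    obtain ⟨c₁, hc₁, h5⟩ := hgen _ (P.sub_mem hx (P.sum_mem fun j _ =>
      P.mul_mem (hc₂ j) (hyP j))) h4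
    exact ⟨c₁, c₂, hc₁, hc₂, by rw [← h5]; ring⟩
  let Y : κ ⊕ ι₂ → F := Sum.elim z y
  have hYP : ∀ i, Y i ∈ P := by
    rintro (i | j)
    · exact hzB i
    · exact hyP j
  have hunitP : ∀ x : P, IsUnit x ↔ (x : F) ≠ 0 ∧ (x : F)⁻¹ ∈ V.toSubring := fun x =>
    isUnit_lo_iff hBV x
  have hmaxP : ∀ x : P, x ∈ maximalIdeal P ↔ NU V.toSubring (x : F) := by
    intro x
    rw [mem_maximalIdeal, mem_nonunits_iff, hunitP]
    rfl
  have hYn : ∀ i, NU V.toSubring (Y i) := by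
    rintro (i | j)
    · change NU V.toSubring (z i)
      refine (tr_nu h (hz0 i) (hPV (hzB i))).2 ?_
      rintro ⟨h1, -⟩
      exact h1 rfl
    · change NU V.toSubring (y j)
      refine (tr_nu h (hyr j) (hPV (hyP j))).2 ?_
      rintro ⟨-, h1⟩
      exact hyn j h1
  have hspan : Ideal.span (Set.range fun i => (⟨Y i, hYP i⟩ : P)) = maximalIdeal P := by
    apply le_antisymm
    · rw [Ideal.span_le]
      rintro _ ⟨i, rfl⟩
      exact (hmaxP _).2 (hYn i)
    · rintro ⟨x, hx⟩ hxm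
      obtain ⟨c₁, c₂, hc₁, hc₂, hzc⟩ := hmax x hx ((hmaxP _).1 hxm)
      have h1 : (⟨x, hx⟩ : P) = ∑ i, (⟨c₁ i, hc₁ i⟩ : P) * ⟨Y (Sum.inl i), hYP _⟩ +
          ∑ j, (⟨c₂ j, hc₂ j⟩ : P) * ⟨Y (Sum.inr j), hYP _⟩ := by
        apply Subtype.ext
        have e1 : ((∑ i, (⟨c₁ i, hc₁ i⟩ : P) * ⟨Y (Sum.inl i), hYP _⟩ : P) : F) =
            ∑ i, c₁ i * z i := map_sum P.subtype _ _
        have e2 : ((∑ j, (⟨c₂ j, hc₂ j⟩ : P) * ⟨Y (Sum.inr j), hYP _⟩ : P) : F) =
            ∑ j, c₂ j * y j := map_sum P.subtype _ _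
        rw [Subring.coe_add, e1, e2]
        exact hzc
      rw [h1]
      exact Ideal.add_mem _ (Ideal.sum_mem _ fun i _ => Ideal.mul_mem_left _ _
        (Ideal.subset_span ⟨_, rfl⟩)) (Ideal.sum_mem _ fun j _ => Ideal.mul_mem_left _ _
        (Ideal.subset_span ⟨_, rfl⟩))
  -- the dimension
  have hdimP : ((Fintype.card (κ ⊕ ι₂) : ℕ) : WithBot ℕ∞) ≤ ringKrullDim P := by
    obtain ⟨p, hp, hpm, hph⟩ := lo_loc (loc_D h) hPD
    have e1 : lo D P = D := by
      apply le_antisymm (lo_le hPD)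
      intro a ha
      obtain ⟨b, hb, c, hc, hcD, hcπ, rfl⟩ := hfr a ha
      have hcI : Im π c (π ⟨c, hcD⟩) := ⟨hcD, rfl⟩
      exact ⟨b, hBP hb, c, hBP hc, hcI.ne_zero hcπ, (hcI.inv h.unit hcπ).mem, rfl⟩
    rw [e1] at hph
    rw [hph] at hdim
    let θ : P →+* Pb := (π.comp (Subring.inclusion hPD)).codRestrict Pb (by
      intro x
      rw [← hPbP]
      exact ⟨x, x.2, hPD x.2, rfl⟩)
    have hθs : Function.Surjective θ := by
      rintro ⟨w, hw⟩
      have hw' := hw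
      rw [← hPbP] at hw'
      obtain ⟨x, hx, hxw⟩ := hw'
      refine ⟨⟨x, hx⟩, Subtype.ext ?_⟩
      obtain ⟨h1, h2⟩ := hxw
      exact h2
    have hker : RingHom.ker θ = p := by
      ext x
      rw [RingHom.mem_ker, hpm, nu_D h (hPD x.2)]
      constructor
      · intro h1
        exact ⟨hPD x.2, congrArg Subtype.val h1⟩
      · rintro ⟨h1, h2⟩
        exact Subtype.ext h2
    have e4 : ringKrullDim (P ⧸ p) = ringKrullDim Pb := by
      rw [← hker]
      exact ringKrullDim_eq_of_ringEquiv (RingHom.quotientKerEquivOfSurjective hθs)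
    have e5 := height_add_quot p
    rw [e4] at e5
    rw [Fintype.card_sum]
    refine le_trans ?_ e5
    have e6 : (((Fintype.card κ + Fintype.card ι₂ : ℕ) : ℕ) : WithBot ℕ∞) =
        ((Fintype.card κ : ℕ) : WithBot ℕ∞) + ((Fintype.card ι₂ : ℕ) : WithBot ℕ∞) := by
      push_cast
      rfl
    rw [e6]
    exact add_le_add hdim hdim₂
  apply IsRegularLocalRing.of_spanFinrank_maximalIdeal_le
  refine le_trans ?_ hdimP
  rw [← hspan]
  have e1 := Submodule.spanFinrank_span_le_ncard_of_finite (R := P)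
    (Set.finite_range fun i => (⟨Y i, hYP i⟩ : P))
  have e2 : (Set.range fun i => (⟨Y i, hYP i⟩ : P)).ncard ≤ Fintype.card (κ ⊕ ι₂) := by
    rw [← Set.image_univ]
    refine (Set.ncard_image_le (Set.finite_univ)).trans ?_
    rw [Set.ncard_univ, Nat.card_eq_fintype_card]
  exact_mod_cast e1.trans e2

/-- Adjoining generators of the elements with image zero. -/
theorem adjoin_gen (h : Tr D π W V) {B B' Q : Subring F} (hBQ : B ≤ Q) (hQD : Q ≤ D)
    {κ : Type} [Fintype κ] {z : κ → F} (hz0 : ∀ i, Im π (z i) 0) (hzQ : ∀ i, z i ∈ Q)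
    {S : Set F} (hB' : B' = Subring.closure ((B : Set F) ∪ S))
    (hS : ∀ t ∈ S, ∃ c : κ → F, (∀ i, c i ∈ Q) ∧ t = ∑ i, c i * z i)
    (hgen : ∀ w ∈ B, Im π w 0 → ∃ c : κ → F, (∀ i, c i ∈ Q) ∧ w = ∑ i, c i * z i) :
    ∀ w ∈ B', Im π w 0 → ∃ c : κ → F, (∀ i, c i ∈ Q) ∧ w = ∑ i, c i * z i := by
  classical
  have hsQ : ∀ c : κ → F, (∀ i, c i ∈ Q) → ∑ i, c i * z i ∈ Q := fun c hc =>
    Q.sum_mem fun i _ => Q.mul_mem (hc i) (hzQ i)
  have key : ∀ w ∈ B', ∃ b ∈ B, ∃ c : κ → F, (∀ i, c i ∈ Q) ∧ w = b + ∑ i, c i * z i := by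
    intro w hw
    rw [hB'] at hw
    induction hw using Subring.closure_induction with
    | mem w hw =>
      rcases hw with hw | hw
      · exact ⟨w, hw, fun _ => 0, fun _ => Q.zero_mem, by simp⟩
      · obtain ⟨c, hc, hwc⟩ := hS w hw
        exact ⟨0, B.zero_mem, c, hc, by rw [zero_add]; exact hwc⟩
    | zero => exact ⟨0, B.zero_mem, fun _ => 0, fun _ => Q.zero_mem, by simp⟩
    | one => exact ⟨1, B.one_mem, fun _ => 0, fun _ => Q.zero_mem, by simp⟩
    | add w w' _ _ ih ih' =>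
      obtain ⟨b, hb, c, hc, rfl⟩ := ih
      obtain ⟨b', hb', c', hc', rfl⟩ := ih'
      refine ⟨b + b', B.add_mem hb hb', fun i => c i + c' i, fun i => Q.add_mem (hc i) (hc' i), ?_⟩
      simp_rw [add_mul]
      rw [Finset.sum_add_distrib]
      ring
    | neg w _ ih =>
      obtain ⟨b, hb, c, hc, rfl⟩ := ih
      refine ⟨-b, B.neg_mem hb, fun i => -c i, fun i => Q.neg_mem (hc i), ?_⟩
      simp_rw [neg_mul]
      rw [Finset.sum_neg_distrib]
      ring
    | mul w w' _ _ ih ih' =>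
      obtain ⟨b, hb, c, hc, hzc⟩ := ih
      obtain ⟨b', hb', c', hc', hzc'⟩ := ih'
      have hw'Q : w' ∈ Q := by rw [hzc']; exact Q.add_mem (hBQ hb') (hsQ c' hc')
      refine ⟨b * b', B.mul_mem hb hb', fun i => b * c' i + c i * w', fun i => ?_, ?_⟩
      · exact Q.add_mem (Q.mul_mem (hBQ hb) (hc' i)) (Q.mul_mem (hc i) hw'Q)
      · have h1 : ∑ i, (b * c' i + c i * w') * z i = b * ∑ i, c' i * z i + w' * ∑ i, c i * z i := by
          rw [Finset.mul_sum, Finset.mul_sum, ← Finset.sum_add_distrib]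
          exact Finset.sum_congr rfl fun i _ => by ring
        rw [h1]
        have h2 : ∑ i, c' i * z i = w' - b' := by rw [hzc']; ring
        have h3 : ∑ i, c i * z i = w - b := by rw [hzc]; ring
        rw [h2, h3]
        ring
  intro w hw hw0
  obtain ⟨b, hb, c, hc, hwc⟩ := key w hw
  have hsum : Im π (∑ i, c i * z i) 0 := by
    have h1 := Im.sum (π := π) Finset.univ (z := fun i => c i * z i) (w := fun _ => 0)
      fun i _ => Im.mul_zero (hQD (hc i)) (hz0 i)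
    rwa [Finset.sum_const_zero] at h1
  have hb0 : Im π b 0 := by
    have h1 := hw0.sub hsum
    rw [sub_zero] at h1
    have h2 : w - ∑ i, c i * z i = b := by rw [hwc]; ring
    rwa [h2] at h1
  obtain ⟨c', hc', hbc⟩ := hgen b hb hb0
  refine ⟨fun i => c' i + c i, fun i => Q.add_mem (hc' i) (hc i), ?_⟩
  rw [hwc, hbc, ← Finset.sum_add_distrib]
  exact Finset.sum_congr rfl fun i _ => by ring

end Pool.Agent.Q299.RM
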