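import Pool.Agent.Q299.RM.Mod
import Pool.Agent.Q299.TD.Cls

/-!
# Schemes which are regular at the centre of a valuation
-/

set_option autoImplicit false

open AlgebraicGeometry CategoryTheory Limits Pointwise HomogeneousLocalization

namespace Pool.Agent.Q299.RM

open Pool.Agent.W418.LU2 Pool.Agent.TH188.QS Pool.Agent.TH188.ARC Pool.Agent.H176.DT
  Pool.Agent.H918R2.Quad Pool.Agent.H968R2.Quad Pool.Agent.W559.GF Pool.Agent.W930.GF
  Pool.Agent.W191.GF
open Pool.Agent.Q299.TD (AllGP su_of_gp)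

section alg

variable {O K F : Type} [CommRing O] [IsDomain O] [Field K] [Algebra O K] [IsFractionRing O K]
  [Field F] [Algebra K F] [Algebra O F] [IsScalarTower O K F]

/-- The charts have the fraction field `F`. -/
lemma frac_of_cm {ι : Type} (y : ι → F) (hy : ∀ i, y i ≠ 0) (i : ι)
    (hF : ∀ z : F, ∃ a ∈ Algebra.adjoin K (Set.range fun j => y j / y i),
      ∃ b ∈ Algebra.adjoin K (Set.range fun j => y j / y i), b ≠ 0 ∧ z = a / b) {D : ℕ}
    {M : Submodule O F} (hM : Cm (Submodule.span O (Set.range y)) D M) {g : F}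
    (hg0 : g ≠ 0) (z : F) :
    ∃ a ∈ (chart O M g).toSubring, ∃ b ∈ (chart O M g).toSubring, b ≠ 0 ∧ z = a * b⁻¹ := by
  classical
  have hOF : Function.Injective (algebraMap O F) := by
    rw [IsScalarTower.algebraMap_eq O K F]
    exact (algebraMap K F).injective.comp (IsFractionRing.injective O K)
  set C := (chart O M g).toSubring with hC
  set L := Subfield.closure (C : Set F) with hL
  have hCL : ∀ c ∈ C, c ∈ L := fun c hc => Subfield.subset_closure hc
  have hOL : ∀ o, algebraMap O F o ∈ L := fun o =>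
    hCL _ (Subalgebra.algebraMap_mem (chart O M g) o)
  have hKL : ∀ k, algebraMap K F k ∈ L := by
    intro k
    obtain ⟨a, b, -, rfl⟩ := IsFractionRing.div_surjective (A := O) k
    rw [map_div₀, ← IsScalarTower.algebraMap_apply, ← IsScalarTower.algebraMap_apply]
    exact L.div_mem (hOL a) (hOL b)
  obtain ⟨e, rfl⟩ := Nat.exists_eq_add_of_le' hM.pos
  have hw : ∀ j, ∃ s : O, s ≠ 0 ∧ s • (y i ^ e * y j) ∈ M := by
    intro j
    refine hM.comm _ ?_
    rw [pow_succ]
    exact Submodule.mul_mem_mul (Submodule.pow_mem_pow (Submodule.span O (Set.range y))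
      (Submodule.subset_span (Set.mem_range_self i)) e)
      (Submodule.subset_span (Set.mem_range_self j))
  choose s hs0 hs using hw
  have hs0' : ∀ j, algebraMap O F (s j) ≠ 0 := fun j h => hs0 j (hOF (by rw [h, map_zero]))
  have hq : ∀ j, y i ^ e * y j / g ∈ L := by
    intro j
    have h1 : y i ^ e * y j / g = (s j • (y i ^ e * y j)) / g / algebraMap O F (s j) := by
      rw [Algebra.smul_def, eq_div_iff (hs0' j)]
      ring
    rw [h1]
    exact L.div_mem (hCL _ (Algebra.subset_adjoin ⟨_, hs j, rfl⟩)) (hOL _)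
  have hyL : ∀ j, y j / y i ∈ L := by
    intro j
    have h1 : y j / y i = (y i ^ e * y j / g) / (y i ^ e * y i / g) := by
      rw [div_div_div_cancel_right₀ hg0, mul_div_mul_left _ _ (pow_ne_zero e (hy i))]
    rw [h1]
    exact L.div_mem (hq j) (hq i)
  have hAL : ∀ a ∈ Algebra.adjoin K (Set.range fun j => y j / y i), a ∈ L := by
    let L' : Subalgebra K F := { L.toSubring with algebraMap_mem' := hKL }
    have : Algebra.adjoin K (Set.range fun j => y j / y i) ≤ L' := Algebra.adjoin_le (by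
      rintro _ ⟨j, rfl⟩
      exact hyL j)
    exact fun a ha => this ha
  have hzL : z ∈ L := by
    obtain ⟨a, ha, b, hb, -, rfl⟩ := hF z
    exact L.div_mem (hAL a ha) (hAL b hb)
  obtain ⟨a, ha, b, hb, h⟩ := Subfield.mem_closure_iff.1 hzL
  rw [Subring.closure_eq] at ha hb
  by_cases hb0 : b = 0
  · refine ⟨0, C.zero_mem, 1, C.one_mem, one_ne_zero, ?_⟩
    rw [← h, hb0, div_zero, zero_mul]
  · exact ⟨a, ha, b, hb, hb0, by rw [← h, div_eq_mul_inv]⟩

/-- Strong uniformization of the charts. -/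
lemma su_chart [IsNoetherianRing O] {ι : Type} (y : ι → F) (hy : ∀ i, y i ≠ 0) (i : ι)
    (hF : ∀ z : F, ∃ a ∈ Algebra.adjoin K (Set.range fun j => y j / y i),
      ∃ b ∈ Algebra.adjoin K (Set.range fun j => y j / y i), b ≠ 0 ∧ z = a / b)
    {V : ValuationSubring F} (hOV : ∀ o, algebraMap O F o ∈ V)
    (hV : AllGP (algebraMap O F) V) {D : ℕ} {M : Submodule O F}
    (hM : Cm (Submodule.span O (Set.range y)) D M) (g : F) (hg : g ∈ M) (hg0 : g ≠ 0)
    (hgV : ∀ m ∈ M, m / g ∈ V) : SU V (chart O M g).toSubring := by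
  classical
  obtain ⟨G, hG⟩ := hM.fg
  have h1 : Subring.closure (((algebraMap O F).range : Set F) ∪ {z | ∃ v ∈ (G : Set F), z = v / g}) =
      (chart O M g).toSubring := by
    rw [← hG]
    exact ch_eq (G : Set F) g
  have hT : {z | ∃ v ∈ (G : Set F), z = v / g}.Finite := by
    refine (G.finite_toSet.image fun v => v / g).subset ?_
    rintro z ⟨v, hv, rfl⟩
    exact ⟨v, hv, rfl⟩
  have hMod : Mod V (chart O M g).toSubring :=
    ⟨chart_le_V hOV hgV, fun z => frac_of_cm (K := K) y hy i hF hM hg0 z⟩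
  have hN : IsNoetherianRing (chart O M g).toSubring := chart_noeth hM.fg g
  refine su_of_gp hMod ?_
  have h2 := hV _ hT (by rw [h1]; exact hMod)
  rwa [h1] at h2

end alg

section sch

/-- The field `F` is the function field of `X`, by the morphism `η : Spec F ⟶ X`: the image is the
generic point, and `F` is the field of fractions of the coordinate rings of all affine open
subschemes which contain it. -/
def IsFunctionField {X : Scheme.{0}} [IsIntegral X] {F : Type} [Field F]
    (η : Spec (CommRingCat.of F) ⟶ X) : Prop :=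
  η (IsLocalRing.closedPoint F : PrimeSpectrum F) = genericPoint X ∧
    ∀ (B : Type) [CommRing B] (j : Spec (CommRingCat.of B) ⟶ X) [IsOpenImmersion j] (ρ : B →+* F),
      Spec.map (CommRingCat.ofHom ρ) ≫ j = η → ∀ z : F, ∃ a b : B, ρ b ≠ 0 ∧ z = ρ a / ρ b

/-- The morphism `η : Spec F ⟶ Y` extends to `Spec V`, and `Y` is regular at the image of the closed
point, the centre of the valuation ring `V` on `Y`. -/
def IsRegularAtCentre {Y : Scheme.{0}} {F : Type} [Field F] (η : Spec (CommRingCat.of F) ⟶ Y)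
    (V : ValuationSubring F) : Prop :=
  ∃ ζ : Spec (CommRingCat.of V) ⟶ Y, Spec.map (CommRingCat.ofHom V.subtype) ≫ ζ = η ∧
    IsRegularLocalRing (Y.presheaf.stalk (ζ (IsLocalRing.closedPoint V : PrimeSpectrum V)))

lemma regular_centre {O F : Type} [CommRing O] [Field F] [Algebra O F] {M : Submodule O F}
    {V : ValuationSubring F} (hOV : ∀ o, algebraMap O F o ∈ V) (h : Rg V M) {g : F} (hg : g ∈ M)
    (hg0 : g ≠ 0) : IsRegularAtCentre (Pool.Agent.W398.GF.eta M g hg hg0) V := by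
  obtain ⟨g₁, hg₁, hg₁0, hMV, hreg⟩ := h
  have hBV : (chart O M g₁).toSubring ≤ V.toSubring := chart_le_V hOV hMV
  obtain ⟨jY, hjY, hjYU, hjYη⟩ := Pool.Agent.W398.GF.isChart M g₁ hg₁ hg₁0
  let β : (chart O M g₁).toSubring →+* V := Subring.inclusion hBV
  refine ⟨Spec.map (CommRingCat.ofHom β) ≫ jY, ?_, ?_⟩
  · rw [Pool.Agent.W398.GF.eta_eq M hg hg₁ hg0 hg₁0, ← hjYη, ← Category.assoc, ← Spec.map_comp]
    rfl
  · obtain ⟨P, hP, hPm, hPreg⟩ := regular_centre' hBV hreg
    let x : PrimeSpectrum (CommRingCat.of (chart O M g₁).toSubring) :=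
      (Spec.map (CommRingCat.ofHom β)) (IsLocalRing.closedPoint V : PrimeSpectrum V)
    have hx : x.asIdeal = P := by
      ext b
      rw [hPm]
      have h1 : b ∈ x.asIdeal ↔ β b ∈ IsLocalRing.maximalIdeal V := Iff.rfl
      rw [h1]
      exact V.valuation_lt_one_iff (β b)
    have hxreg : IsRegularLocalRing (Localization.AtPrime x.asIdeal) := by
      subst hx
      exact hPreg
    exact regular_via jY x hxreg

/-- Models of an integral projective scheme which are regular at the centres of given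
valuations. -/
theorem main {O K : Type} [CommRing O] [IsDedekindDomain O] [Field K] [Algebra O K]
    [IsFractionRing O K] {X : Scheme.{0}} [IsIntegral X] (f : X ⟶ Spec (CommRingCat.of K))
    {A : Type} [CommRing A] [Algebra K A] (𝒜 : ℕ → Submodule K A) [GradedAlgebra 𝒜]
    (h0 : ∀ a ∈ 𝒜 0, ∃ q : K, algebraMap K A q = a) (s : Finset A) (hs : ∀ a ∈ s, a ∈ 𝒜 1)
    (hgen : Algebra.adjoin K (s : Set A) = ⊤) (i : X ≅ Proj 𝒜)
    (hif : i.hom ≫ Proj.toSpecZero 𝒜 ≫ Spec.map (CommRingCat.ofHom (algebraMap K (𝒜 0))) = f)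
    {F : Type} [Field F] [Algebra K F] [Algebra O F] [IsScalarTower O K F]
    (η : Spec (CommRingCat.of F) ⟶ X) (hη : IsFunctionField η)
    (hηf : η ≫ f = Spec.map (CommRingCat.ofHom (algebraMap K F)))
    (S : Finset (ValuationSubring F)) (hOV : ∀ V ∈ S, ∀ o, algebraMap O F o ∈ V)
    (hp : ∀ V ∈ S, ∃ p : O, p ≠ 0 ∧ (∀ z : F, ∃ n : ℕ, algebraMap O F p ^ n * z ∈ V) ∧
      ∀ V' ∈ S, V' ≠ V → (algebraMap O F p)⁻¹ ∈ V')
    (hV : ∀ V ∈ S, AllGP (algebraMap O F) V) :
    ∃ (M : Submodule O F) (g : F) (_ : g ∈ M) (_ : g ≠ 0)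
      (e : pullback (modelMap M) (Spec.map (CommRingCat.ofHom (algebraMap O K))) ≅ X), M.FG ∧
      e.hom ≫ f = pullback.snd _ _ ∧
      ∀ V ∈ S, IsRegularAtCentre (η ≫ e.inv ≫ pullback.fst _ _) V := by
  classical
  have hOF : Function.Injective (algebraMap O F) := by
    rw [IsScalarTower.algebraMap_eq O K F]
    exact (algebraMap K F).injective.comp (IsFractionRing.injective O K)
  have hPne : Nonempty (Proj 𝒜) := ⟨i.hom (genericPoint X)⟩
  have hP : IsIntegral (Proj 𝒜) := isIntegral_of_isOpenImmersion i.inv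
  let fP : Proj 𝒜 ⟶ Spec (CommRingCat.of K) :=
    Proj.toSpecZero 𝒜 ≫ Spec.map (CommRingCat.ofHom (algebraMap K (𝒜 0)))
  let η' : Spec (CommRingCat.of F) ⟶ Proj 𝒜 := η ≫ i.hom
  have hη' : η' (thePt F) = genericPoint (Proj 𝒜) := by
    change i.hom (η (thePt F)) = _
    have h1 : η (thePt F) = genericPoint X := hη.1
    rw [h1]
    exact genericPoint_eq_of_isOpenImmersion i.hom
  have hηK : η' ≫ fP = Spec.map (CommRingCat.ofHom (algebraMap K F)) := by
    rw [← hηf, ← hif]
    simp [η', fP]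
  obtain ⟨ι, hι, hne, y, hy, hat⟩ := proj_atlas 𝒜 η' h0 s hs hgen hη' hηK
  have hsep : IsSeparated fP := inferInstance
  obtain ⟨i₀⟩ := hne
  have hF : ∀ z : F, ∃ a ∈ Algebra.adjoin K (Set.range fun j => y j / y i₀),
      ∃ b ∈ Algebra.adjoin K (Set.range fun j => y j / y i₀), b ≠ 0 ∧ z = a / b := by
    intro z
    obtain ⟨j, hj, hjη, -⟩ := hat.charts
    have := hj i₀
    obtain ⟨a, b, hb0, hz⟩ := hη.2 _ (j i₀ ≫ i.inv)
      ((Algebra.adjoin K (Set.range fun j => y j / y i₀)).toSubring.subtype) (by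
        rw [← Category.assoc]
        change io _ ≫ j i₀ ≫ i.inv = η
        rw [← Category.assoc, hjη i₀]
        simp [η']) z
    exact ⟨a, a.2, b, b.2, hb0, hz⟩
  have hM₀ : (Submodule.span O (Set.range y)).FG := Submodule.fg_span (Set.finite_range y)
  have hne₀ : ∃ g ∈ Submodule.span O (Set.range y), g ≠ 0 :=
    ⟨y i₀, Submodule.subset_span ⟨i₀, rfl⟩, hy i₀⟩
  obtain ⟨D, M, hM, hR⟩ := rg_family hOF hM₀ hne₀ S hOV hp fun V hVS D M hM g hg hg0 hgV =>
    su_chart (K := K) y hy i₀ hF (hOV V hVS) (hV V hVS) hM g hg hg0 hgV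
  obtain ⟨g, hg, hg0⟩ := hM.ne
  have hne : Nonempty ι := ⟨i₀⟩
  obtain ⟨e, he, heη⟩ := mainAt y hy hM.pos hM.fg hM.le hM.comm hsep hηK hat g hg hg0
  refine ⟨M, g, hg, hg0, e ≪≫ i.symm, hM.fg, ?_, ?_⟩
  · rw [← hif]
    change (e.hom ≫ i.inv) ≫ i.hom ≫ fP = _
    rw [← he]
    simp
  · intro V hVS
    have h1 : η ≫ (e ≪≫ i.symm).inv ≫ pullback.fst (modelMap M)
        (Spec.map (CommRingCat.ofHom (algebraMap O K))) = Pool.Agent.W398.GF.eta M g hg hg0 := by
      rw [← heη]
      simp [η']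
    rw [h1]
    exact regular_centre (hOV V hVS) (hR V hVS) hg hg0

end sch

end Pool.Agent.Q299.RM
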