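import Pool.Agent.Q299.RM.Pt
import Pool.Agent.TH188.ARC.G9

/-!
# Models of projective schemes which are regular at centres of valuations of residue fields
-/

set_option autoImplicit false

open AlgebraicGeometry CategoryTheory Limits Pointwise HomogeneousLocalization

namespace Pool.Agent.Q299.RM

open Pool.Agent.W418.LU2 Pool.Agent.TH188.QS Pool.Agent.TH188.ARC Pool.Agent.H176.DT
  Pool.Agent.H918R2.Quad Pool.Agent.H968R2.Quad Pool.Agent.W559.GF Pool.Agent.W930.GF
  Pool.Agent.W191.GF
open Pool.Agent.Q299.TD (AllGP)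

/-- The elements of the residue fields are fractions of the images of functions. -/
lemma residue_frac {X : Scheme.{0}} {x : X} {B : Type} [CommRing B]
    (j : Spec (CommRingCat.of B) ⟶ X) [IsOpenImmersion j] (ρ : B →+* X.residueField x)
    (hρ : Spec.map (CommRingCat.ofHom ρ) ≫ j = X.fromSpecResidueField x) (z : X.residueField x) :
    ∃ a b : B, ρ b ≠ 0 ∧ z = ρ a / ρ b := by
  obtain ⟨y, hy⟩ : ∃ y : Spec (CommRingCat.of B), j y = x := by
    refine ⟨(Spec.map (CommRingCat.ofHom ρ)) (IsLocalRing.closedPoint (X.residueField x) :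
      PrimeSpectrum (X.residueField x)), ?_⟩
    have h1 : (Spec.map (CommRingCat.ofHom ρ) ≫ j) (IsLocalRing.closedPoint (X.residueField x) :
      PrimeSpectrum (X.residueField x)) = x := by
      rw [hρ]
      exact Scheme.fromSpecResidueField_apply x _
    exact h1
  subst hy
  let S : Scheme.{0} := Spec (CommRingCat.of B)
  let k := j.residueFieldMap y
  have hk : IsIso k := inferInstance
  -- the canonical map to the residue field of the spectrum
  let τ : CommRingCat.of B ⟶ S.residueField y :=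
    (Scheme.ΓSpecIso (CommRingCat.of B)).inv ≫ S.presheaf.germ ⊤ y trivial ≫ S.residue y
  have hτ : Spec.map τ = S.fromSpecResidueField y := by
    have h1 : S.fromSpecResidueField y = Spec.map (S.residue y) ≫ S.fromSpecStalk y := rfl
    rw [h1, Spec.map_comp, Spec.map_comp, Category.assoc]
    congr 1
    have h2 := Spec.fromSpecStalk_eq (CommRingCat.of B) y
    rw [← Spec.map_comp]
    exact h2.symm
  have h3 : CommRingCat.ofHom ρ ≫ k = τ := by
    apply Spec.map_injective
    rw [← cancel_mono j, hτ, Spec.map_comp, Category.assoc]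
    have h4 : Spec.map (CommRingCat.ofHom ρ) ≫ j = X.fromSpecResidueField (j y) := hρ
    rw [h4]
    exact Scheme.Hom.SpecMap_residueFieldMap_fromSpecResidueField j y
  have h5 : ∀ b : B, k.hom (ρ b) = τ.hom b := fun b =>
    congrArg (fun m : CommRingCat.of B ⟶ S.residueField y => m.hom b) h3
  have hkinj : Function.Injective k.hom := k.hom.injective
  -- fractions
  have hfr : ∀ w : S.residueField y, ∃ a b : B, τ.hom b ≠ 0 ∧ w = τ.hom a / τ.hom b := by
    intro w
    obtain ⟨v, rfl⟩ := S.residue_surjective y w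
    let R : CommRingCat.{0} := CommRingCat.of B
    let _ : Algebra R ((Spec R).presheaf.stalk y) := StructureSheaf.stalkAlgebra R y
    have h1 : IsLocalization.AtPrime ((Spec R).presheaf.stalk y) y.asIdeal :=
      StructureSheaf.IsLocalization.to_stalk R y
    obtain ⟨a, s, hs⟩ := IsLocalization.exists_mk'_eq y.asIdeal.primeCompl v
    have hτa : ∀ b : B, τ.hom b = (S.residue y).hom (algebraMap R ((Spec R).presheaf.stalk y) b) :=
      fun b => rfl
    have hu : IsUnit (algebraMap R ((Spec R).presheaf.stalk y) s) :=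
      IsLocalization.map_units ((Spec R).presheaf.stalk y) s
    have hs0 : τ.hom (s : B) ≠ 0 := by
      rw [hτa]
      exact (hu.map (S.residue y).hom).ne_zero
    refine ⟨a, s, hs0, ?_⟩
    rw [eq_div_iff hs0, hτa, hτa, ← map_mul]
    congr 1
    rw [← hs]
    exact IsLocalization.mk'_spec _ a s
  obtain ⟨a, b, hb, hab⟩ := hfr (k.hom z)
  refine ⟨a, b, ?_, ?_⟩
  · intro h0
    apply hb
    rw [← h5, h0, map_zero]
  · apply hkinj
    rw [hab, map_div₀, h5, h5]

/-- If the stalk at a point is regular then so is the localization of a chart. -/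
lemma regular_of_stalk_at {X : Scheme.{0}} {B : Type} [CommRing B]
    (j : Spec (CommRingCat.of B) ⟶ X) [IsOpenImmersion j] (P : Ideal B) [hP : P.IsPrime] {x : X}
    (hx : j (⟨P, hP⟩ : PrimeSpectrum B) = x) (h : IsRegularLocalRing (X.presheaf.stalk x)) :
    IsRegularLocalRing (Localization.AtPrime P) := by
  subst hx
  let R : CommRingCat.{0} := CommRingCat.of B
  let x : PrimeSpectrum R := ⟨P, hP⟩
  let k : Algebra R ((Spec R).presheaf.stalk x) := StructureSheaf.stalkAlgebra R x
  have h1 : IsLocalization.AtPrime ((Spec R).presheaf.stalk x) x.asIdeal :=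
    StructureSheaf.IsLocalization.to_stalk R x
  have e := (asIso (j.stalkMap x)).commRingCatIsoToRingEquiv
  have h3 : IsRegularLocalRing ((Spec R).presheaf.stalk x) := IsRegularLocalRing.of_ringEquiv e
  exact IsRegularLocalRing.of_ringEquiv
    (IsLocalization.algEquiv x.asIdeal.primeCompl (Localization.AtPrime x.asIdeal)
      ((Spec R).presheaf.stalk x)).symm.toRingEquiv

/-- The data attached to a regular point. -/
theorem point_data' {O K F : Type} [CommRing O] [IsDomain O] [Field K] [Algebra O K]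
    [IsFractionRing O K] [Field F] [Algebra K F] [Algebra O F] [IsScalarTower O K F]
    {ι : Type} [Fintype ι] (y : ι → F) (hy : ∀ i, y i ≠ 0)
    {X P : Scheme.{0}} (i : X ≅ P) {f : P ⟶ Spec (CommRingCat.of K)}
    {η : Spec (CommRingCat.of F) ⟶ P}
    (hη : η ≫ f = Spec.map (CommRingCat.ofHom (algebraMap K F)))
    (hX : AtlasAt η (fun i => (Algebra.adjoin K (Set.range fun j => y j / y i)).toSubring))
    (x : X) (hreg : IsRegularLocalRing (X.presheaf.stalk x)) (σ : K →+* X.residueField x)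
    (hσ : X.fromSpecResidueField x ≫ i.hom ≫ f = Spec.map (CommRingCat.ofHom σ))
    (W : ValuationSubring (X.residueField x)) :
    ∃ (D : Subring F) (π : D →+* X.residueField x) (y₀ : F) (V : ValuationSubring F)
      (sX : Spec (CommRingCat.of D) ⟶ P) (h : Pt (Submodule.span O (Set.range y)) D π y₀),
      Tr D π W V ∧ Function.Surjective π ∧ (∀ o, π ⟨_, h.OA o⟩ = σ (algebraMap O K o)) ∧
      io D ≫ sX = η ∧
      X.fromSpecResidueField x ≫ i.hom = Spec.map (CommRingCat.ofHom π) ≫ sX := by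
  classical
  let κ : Type := X.residueField x
  let ψ : Spec (CommRingCat.of κ) ⟶ P := X.fromSpecResidueField x ≫ i.hom
  obtain ⟨i₀, j, hj, α, hjη, hαψ⟩ := factor_chart hX ψ
  have hkp : (RingHom.ker α).IsPrime := RingHom.ker_isPrime _
  have hji : IsOpenImmersion (j ≫ i.inv) := inferInstance
  have hα : Spec.map (CommRingCat.ofHom α) ≫ j ≫ i.inv = X.fromSpecResidueField x := by
    rw [← Category.assoc, hαψ]
    change (X.fromSpecResidueField x ≫ i.hom) ≫ i.inv = _
    rw [Category.assoc, i.hom_inv_id, Category.comp_id]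
  have hreg' : IsRegularLocalRing (Localization.AtPrime (RingHom.ker α)) := by
    refine regular_of_stalk_at (j ≫ i.inv) (RingHom.ker α) (x := x) ?_ hreg
    have h1 : (⟨RingHom.ker α, hkp⟩ : PrimeSpectrum
        (Algebra.adjoin K (Set.range fun j => y j / y i₀)).toSubring) =
        (Spec.map (CommRingCat.ofHom α)) (IsLocalRing.closedPoint κ : PrimeSpectrum κ) := by
      apply PrimeSpectrum.ext
      ext b
      change α b = 0 ↔ α b ∈ IsLocalRing.maximalIdeal κ
      rw [IsLocalRing.maximalIdeal_eq_bot, Ideal.mem_bot]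
    rw [h1]
    change (Spec.map (CommRingCat.ofHom α) ≫ j ≫ i.inv) (IsLocalRing.closedPoint κ) = x
    rw [hα]
    exact Scheme.fromSpecResidueField_apply x _
  obtain ⟨D, π, hA, hπα, hPt⟩ := pt_of (O := O) (K := K) y hy i₀ α hreg'
  obtain ⟨V, hV⟩ := exists_tr D π W hPt.unit
  let sX : Spec (CommRingCat.of D) ⟶ P := Spec.map (CommRingCat.ofHom (Subring.inclusion hA)) ≫ j
  have hsη : io D ≫ sX = η := by
    change io D ≫ Spec.map _ ≫ j = η
    rw [← Category.assoc, ← hjη]
    congr 1
    change Spec.map _ ≫ Spec.map _ = Spec.map _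
    rw [← Spec.map_comp]
    rfl
  have hψ : ψ = Spec.map (CommRingCat.ofHom π) ≫ sX := by
    rw [← hαψ]
    change _ = Spec.map _ ≫ Spec.map _ ≫ j
    rw [← Category.assoc, ← Spec.map_comp]
    congr 2
    ext b
    exact (hπα b).symm
  refine ⟨D, π, y i₀, V, sX, hPt, hV, ?_, ?_, hsη, hψ⟩
  · intro z
    obtain ⟨a, b, hb, rfl⟩ := residue_frac (j ≫ i.inv) α hα z
    have ha' : Im π (a : F) (α a) := ⟨hA a.2, hπα a⟩
    have hb' : Im π (b : F) (α b) := ⟨hA b.2, hπα b⟩
    obtain ⟨h1, h2⟩ := ha'.mul (hb'.inv hPt.unit hb)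
    exact ⟨_, by rw [h2, div_eq_mul_inv]⟩
  · -- the structure morphism
    let B := (Algebra.adjoin K (Set.range fun j => y j / y i₀)).toSubring
    let β : K →+* B := (algebraMap K F).codRestrict B fun k =>
      Subalgebra.algebraMap_mem (Algebra.adjoin K (Set.range fun j => y j / y i₀)) k
    have hjf : j ≫ f = Spec.map (CommRingCat.ofHom β) := by
      apply io_mono B
      rw [← Category.assoc]
      change (io _ ≫ j) ≫ f = _
      rw [hjη, hη]
      change _ = Spec.map _ ≫ Spec.map _
      rw [← Spec.map_comp]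
      rfl
    have hβσ : α.comp β = σ := by
      have h1 : Spec.map (CommRingCat.ofHom (α.comp β)) = Spec.map (CommRingCat.ofHom σ) := by
        rw [← hσ, ← Category.assoc]
        change _ = ψ ≫ f
        rw [← hαψ, Category.assoc, hjf, ← Spec.map_comp]
        rfl
      have h2 := Spec.map_injective h1
      exact congrArg (fun g => g.hom) h2
    intro o
    rw [← hβσ]
    change _ = α (β (algebraMap O K o))
    rw [← hπα]
    congr 1
    exact Subtype.ext (IsScalarTower.algebraMap_apply O K F o)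

/-- Models of an integral projective scheme which are regular at the centres of given valuations
of the residue fields of regular points. -/
theorem main2 {O K : Type} [CommRing O] [IsDedekindDomain O] [Field K] [Algebra O K]
    [IsFractionRing O K] {X : Scheme.{0}} [IsIntegral X] (f : X ⟶ Spec (CommRingCat.of K))
    {A : Type} [CommRing A] [Algebra K A] (𝒜 : ℕ → Submodule K A) [GradedAlgebra 𝒜]
    (h0 : ∀ a ∈ 𝒜 0, ∃ q : K, algebraMap K A q = a) (s : Finset A) (hs : ∀ a ∈ s, a ∈ 𝒜 1)
    (hgen : Algebra.adjoin K (s : Set A) = ⊤) (i : X ≅ Proj 𝒜)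
    (hif : i.hom ≫ Proj.toSpecZero 𝒜 ≫ Spec.map (CommRingCat.ofHom (algebraMap K (𝒜 0))) = f)
    {ι : Type} [Finite ι] (x : ι → X) (hreg : ∀ t, IsRegularLocalRing (X.presheaf.stalk (x t)))
    (W : ∀ t, ValuationSubring (X.residueField (x t))) (σ : ∀ t, K →+* X.residueField (x t))
    (hσ : ∀ t, X.fromSpecResidueField (x t) ≫ f = Spec.map (CommRingCat.ofHom (σ t)))
    (p : ι → O) (hp0 : ∀ t, p t ≠ 0) (hOW : ∀ t o, σ t (algebraMap O K o) ∈ W t)
    (hpW : ∀ t z, ∃ n : ℕ, σ t (algebraMap O K (p t)) ^ n * z ∈ W t)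
    (hpp : ∀ t t', t ≠ t' → (σ t' (algebraMap O K (p t)))⁻¹ ∈ W t')
    (hW : ∀ t, AllGP ((σ t).comp (algebraMap O K)) (W t)) :
    ∃ (F : Type) (_ : Field F) (_ : Algebra K F) (_ : Algebra O F) (_ : IsScalarTower O K F)
      (M : Submodule O F) (g : F) (_ : g ∈ M) (_ : g ≠ 0)
      (e : pullback (modelMap M) (Spec.map (CommRingCat.ofHom (algebraMap O K))) ≅ X), M.FG ∧
      e.hom ≫ f = pullback.snd _ _ ∧
      ∀ t, ∃ ζ : Spec (CommRingCat.of (W t)) ⟶ model M,
        Spec.map (CommRingCat.ofHom (W t).subtype) ≫ ζ =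
          X.fromSpecResidueField (x t) ≫ e.inv ≫ pullback.fst _ _ ∧
        IsRegularLocalRing ((model M).presheaf.stalk
          (ζ (IsLocalRing.closedPoint (W t) : PrimeSpectrum (W t)))) := by
  classical
  have hPne : Nonempty (Proj 𝒜) := ⟨i.hom (genericPoint X)⟩
  have hP : IsIntegral (Proj 𝒜) := isIntegral_of_isOpenImmersion i.inv
  obtain ⟨F, hF, η, hη⟩ := exists_generic (Proj 𝒜)
  let fP : Proj 𝒜 ⟶ Spec (CommRingCat.of K) :=
    Proj.toSpecZero 𝒜 ≫ Spec.map (CommRingCat.ofHom (algebraMap K (𝒜 0)))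
  obtain ⟨φ, hφ⟩ := Spec.map_surjective (η ≫ fP)
  let _ : Algebra K F := φ.hom.toAlgebra
  have hηK : η ≫ fP = Spec.map (CommRingCat.ofHom (algebraMap K F)) := hφ.symm
  let _ : Algebra O F := ((algebraMap K F).comp (algebraMap O K)).toAlgebra
  have hst : IsScalarTower O K F := IsScalarTower.of_algebraMap_eq' rfl
  have hOF : Function.Injective (algebraMap O F) := by
    rw [IsScalarTower.algebraMap_eq O K F]
    exact (algebraMap K F).injective.comp (IsFractionRing.injective O K)
  obtain ⟨ι₀, hι, hne, y, hy, hat⟩ := proj_atlas 𝒜 η h0 s hs hgen hη hηK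
  have hsep : IsSeparated fP := inferInstance
  choose D π y₀ V sX hPt hTr hπ hπσ hsη hψ using fun t =>
    point_data' (O := O) y hy i hηK hat (x t) (hreg t) (σ t) (by
      rw [← hσ t, ← hif]) (W t)
  have hσI : ∀ t o, Im (π t) (algebraMap O F o) (σ t (algebraMap O K o)) := fun t o =>
    ⟨(hPt t).OA o, hπσ t o⟩
  have hOV : ∀ t o, algebraMap O F o ∈ V t := fun t o => (tr_mem (hTr t) (hσI t o)).2 (hOW t o)
  have hσp : ∀ t t', σ t' (algebraMap O K (p t)) ≠ 0 := fun t t' =>
    (map_ne_zero _).2 fun h => hp0 t (IsFractionRing.injective O K (by rw [h, map_zero]))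
  have hM₀ : (Submodule.span O (Set.range y)).FG := Submodule.fg_span (Set.finite_range y)
  obtain ⟨i₀⟩ := hne
  have hne : Nonempty ι₀ := ⟨i₀⟩
  have hne₀ : ∃ g ∈ Submodule.span O (Set.range y), g ≠ 0 :=
    ⟨y i₀, Submodule.subset_span ⟨i₀, rfl⟩, hy i₀⟩
  obtain ⟨d, M, hM, hR⟩ := rg_family' hOF hM₀ hne₀ V p hp0 hOV
    (fun t t' htt => (tr_mem (hTr t') ((hσI t' (p t)).inv (hPt t').unit (hσp t t'))).2
      (hpp t t' htt))
    (fun t d M hM g hg hg0 hgV => hasStage_of_pt hM (hPt t) (hTr t) (hπ t) (hOV t) (p t) (hp0 t)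
      (σ := (σ t).comp (algebraMap O K)) (hπσ t) (hpW t) (hW t) hg hg0 hgV)
  obtain ⟨g, hg, hg0⟩ := hM.ne
  obtain ⟨e, he, heη⟩ := mainAt y hy hM.pos hM.fg hM.le hM.comm hsep hηK hat g hg hg0
  have hpM : IsProper (modelMap M) := modelMap_isProper M hOF hM.fg
  refine ⟨F, hF, inferInstance, inferInstance, hst, M, g, hg, hg0, e ≪≫ i.symm, hM.fg, ?_, ?_⟩
  · rw [← hif]
    change (e.hom ≫ i.inv) ≫ i.hom ≫ fP = _
    rw [← he]
    simp
  · intro t
    have h := hPt t
    obtain ⟨g₁, hg₁, hg₁0, hMV, hregC⟩ := hR t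
    obtain ⟨hMA, hfr⟩ := frac_chart (hTr t) h.OA h.OL h.mem h.ne h.MA h.fr hM.pos hM.le hM.comm
      hg₁ hg₁0 hMV
    have hBA := chart_le_A h.OA hMA
    obtain ⟨jY, hjY, hjYU, hjYη⟩ := Pool.Agent.W398.GF.isChart M g₁ hg₁ hg₁0
    have hss : sX t ≫ e.inv ≫ pullback.fst _ _ =
        Spec.map (CommRingCat.ofHom (Subring.inclusion hBA)) ≫ jY := by
      have hd : IsDominant (io (D t)) := ⟨io_dense (D t)⟩
      have h1 : io (D t) ≫ sX t ≫ e.inv ≫ pullback.fst _ _ =
          io (D t) ≫ Spec.map (CommRingCat.ofHom (Subring.inclusion hBA)) ≫ jY := by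
        have h2 : io (D t) ≫ Spec.map (CommRingCat.ofHom (Subring.inclusion hBA)) ≫ jY =
            Pool.Agent.W398.GF.eta M g₁ hg₁ hg₁0 := by
          rw [← Category.assoc, ← hjYη]
          congr 1
          change Spec.map _ ≫ Spec.map _ = Spec.map _
          rw [← Spec.map_comp]
          rfl
        rw [h2, ← Category.assoc, hsη t, heη]
        exact Pool.Agent.W398.GF.eta_eq M hg hg₁ hg0 hg₁0
      refine ext_of_isDominant_of_isSeparated (modelMap M) ?_ (io (D t)) h1
      apply io_mono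
      have h2 := congrArg (fun m => m ≫ modelMap M) h1
      simp only [Category.assoc] at h2 ⊢
      exact h2
    obtain ⟨ζ, hζ, hr⟩ := extend_chart (hTr t) (chart_le_V (hOV t) hMV) hBA hregC jY
    refine ⟨ζ, ?_, hr⟩
    rw [hζ]
    have h3 : X.fromSpecResidueField (x t) ≫ (e ≪≫ i.symm).inv ≫ pullback.fst (modelMap M)
        (Spec.map (CommRingCat.ofHom (algebraMap O K))) =
        (X.fromSpecResidueField (x t) ≫ i.hom) ≫ e.inv ≫ pullback.fst _ _ := by simp
    rw [h3, hψ t, Category.assoc]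
    change _ = Spec.map _ ≫ sX t ≫ e.inv ≫ pullback.fst _ _
    rw [hss, ← Category.assoc, ← Spec.map_comp]
    rfl

end Pool.Agent.Q299.RM
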